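import Pool.Agent.Lib.MP_b26fee_pr.Main

namespace Pool.Agent.Lib.MP_b26fee_pr

open Filter Topology

theorem both_readings :
    (∃ (N : ℕ → ℕ) (f : ∀ n, (Fin (N n) → Bool) → Bool),
      Tendsto N atTop atTop ∧ (∀ n, Monotone (f n)) ∧ (∀ n, 1 / 4 ≤ var (sgn (f n))) ∧
      (∀ ε ∈ Set.Ioo (0 : ℝ) 1, Tendsto (fun n => noiseCov (sgn (f n)) ε) atTop (𝓝 0)) ∧
      ∀ δ ∈ Set.Ioo (0 : ℝ) 1,
        Tendsto (fun n => bern δ (clue (sgn (f n))) / cp (sgn (f n)) δ) atTop atTop) ∧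
    (∃ (N : ℕ → ℕ) (f : ∀ n, (Fin (N n) → Bool) → Bool),
      Tendsto N atTop atTop ∧ (∀ n, Monotone (f n)) ∧ (∀ n, 1 / 4 ≤ var (sgn (f n))) ∧
      (∀ ε ∈ Set.Ioo (0 : ℝ) 1, Tendsto (fun n => noiseCov (sgn (f n)) ε) atTop (𝓝 0)) ∧
      ∀ δ ∈ Set.Ioo (0 : ℝ) 1, (∀ n, 0 < bern δ (clue (sgn (f n)))) ∧
        ∀ η : ℝ, 0 < η → ∀ᶠ n in atTop, ∀ U : Finset (Fin (N n)), (U.card : ℝ) ≤ δ * N n →
          clue (sgn (f n)) U ≤ (1 + η) * bern δ (clue (sgn (f n)))) := by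
  have hpow : Tendsto (fun j : ℕ => (2 * j + 2) ^ 4) atTop atTop :=
    (tendsto_pow_atTop (by norm_num)).comp tendsto_lin
  constructor
  · have hle : ∀ j : ℕ, (2 * j + 2) ^ 4 ≤ (2 * j + 2) ^ 12 := fun j =>
      Nat.pow_le_pow_right (by omega) (by norm_num)
    obtain ⟨T, j0, -, hv, hn⟩ := exists_seq (fun j => (2 * j + 2) ^ 12) (fun j => le_rfl)
      (fun j => Fin.castLEEmb (hle j))
    refine ⟨fun j => (2 * (j + j0) + 2) ^ 12, fun j => fT (Fin.castLEEmb (hle _)) (T (j + j0)),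
      ?_, fun j => fT_mono _ _, hv, hn, fun δ hδ => ?_⟩
    · exact (tendsto_atTop_mono hle hpow).comp (tendsto_add_atTop_nat j0)
    · have h1 : Tendsto (fun j : ℕ => δ / 4 * (((2 * (j + j0) + 2) ^ 4 : ℕ) : ℝ)) atTop atTop :=
        Tendsto.const_mul_atTop (by linarith [hδ.1])
          (tendsto_natCast_atTop_atTop.comp (hpow.comp (tendsto_add_atTop_nat j0)))
      refine tendsto_atTop_mono (fun j => ?_) h1
      have h2 := bern_clue_ge _ _ (hv j) hδ.1.le
      obtain ⟨h3, h4⟩ := cp_bounds _ _ (hv j) hδ.1 hδ.2.le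
      simp only [Fintype.card_fin] at h2 h4
      rw [le_div_iff₀ h3]
      refine le_trans ?_ h2
      have h5 := hδ.1
      refine (mul_le_mul_of_nonneg_left h4 (by positivity)).trans (le_of_eq ?_)
      push_cast
      field_simp
  · obtain ⟨T, j0, hT, hv, hn⟩ := exists_seq (fun j => (2 * j + 2) ^ 4)
      (fun j => Nat.pow_le_pow_right (by omega) (by norm_num))
      (fun j => Function.Embedding.refl _)
    refine ⟨fun j => (2 * (j + j0) + 2) ^ 4, fun j => fT (Function.Embedding.refl _) (T (j + j0)),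
      hpow.comp (tendsto_add_atTop_nat j0), fun j => fT_mono _ _, hv, hn, fun δ hδ => ?_⟩
    have h5 := hδ.1
    refine ⟨fun j => lt_of_lt_of_le (by positivity) (bern_clue_ge _ _ (hv j) hδ.1.le),
      fun η hη => ?_⟩
    have h1 := (tendsto_size (fun j => (2 * j + 2) ^ 4)
      (fun j => Nat.pow_le_pow_right (by omega) (by norm_num))).comp (tendsto_add_atTop_nat j0)
    filter_upwards [h1.eventually (ge_mem_nhds (show (0 : ℝ) < η * δ / 128 by positivity))]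
      with j hj U hU
    have h2 := bern_clue_ge _ _ (hv j) hδ.1.le
    have h3 := clue_le (T (j + j0)) (hT _) (hv j) hδ.1.le hδ.2.le U (by simpa using hU)
    simp only [Fintype.card_fin, Function.comp] at h2 hj
    have h4 : 32 * (((((2 * (j + j0) + 2) ^ 4 : ℕ) : ℝ) + 2) / 2 ^ (j + j0))
        ≤ η * (δ / (4 * (((2 * (j + j0) + 2) ^ 4 : ℕ) : ℝ))) := by
      rw [← mul_div_assoc η, le_div_iff₀ (by positivity)]
      push_cast at hj ⊢
      linarith
    have h6 := mul_le_mul_of_nonneg_left h2 hη.le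
    linarith

end Pool.Agent.Lib.MP_b26fee_pr
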