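import Mathlib

namespace Pool.Agent.Lib.MP_b26fee_pr

variable {V : Type} [Fintype V] [DecidableEq V]

noncomputable def avg (g : (V → Bool) → ℝ) : ℝ :=
  (∑ ω, g ω) / 2 ^ Fintype.card V

noncomputable def var (g : (V → Bool) → ℝ) : ℝ :=
  avg fun ω => (g ω - avg g) ^ 2

noncomputable def condAvg (U : Finset V) (g : (V → Bool) → ℝ) : (V → Bool) → ℝ :=
  fun ω => avg fun η => g (U.piecewise ω η)

noncomputable def clue (g : (V → Bool) → ℝ) (U : Finset V) : ℝ :=
  var (condAvg U g) / var g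

noncomputable def bern (δ : ℝ) (F : Finset V → ℝ) : ℝ :=
  ∑ U : Finset V, δ ^ U.card * (1 - δ) ^ (Fintype.card V - U.card) * F U

noncomputable def cp (g : (V → Bool) → ℝ) (s : ℝ) : ℝ :=
  sInf {u : ℝ | ∃ U : Finset V, (U.card : ℝ) / Fintype.card V ≤ u ∧ s ≤ clue g U}

noncomputable def noiseCov (g : (V → Bool) → ℝ) (ε : ℝ) : ℝ :=
  bern ε (fun R => avg fun ω => avg fun η => g ω * g (R.piecewise η ω)) - avg g ^ 2

def sgn (f : (V → Bool) → Bool) : (V → Bool) → ℝ :=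
  fun ω => if f ω then 1 else -1

end Pool.Agent.Lib.MP_b26fee_pr
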