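import Mathlib

namespace Pool.Agent.Lib.MP_b26fee_pr

open Finset
open scoped BigOperators

lemma exp_le_chord {c y lam : ℝ} (hc : 0 < c) (hy : |y| ≤ c) :
    Real.exp (lam * y) ≤ Real.cosh (lam * c) + y / c * Real.sinh (lam * c) := by
  obtain ⟨h1, h2⟩ := abs_le.1 hy
  have ha : 0 ≤ (c + y) / (2 * c) := by apply div_nonneg <;> linarith
  have hb : 0 ≤ (c - y) / (2 * c) := by apply div_nonneg <;> linarith
  have hab : (c + y) / (2 * c) + (c - y) / (2 * c) = 1 := by field_simp; ring
  have := convexOn_exp.2 (Set.mem_univ (lam * c)) (Set.mem_univ (-(lam * c))) ha hb hab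
  simp only [smul_eq_mul] at this
  have e1 : (c + y) / (2 * c) * (lam * c) + (c - y) / (2 * c) * -(lam * c) = lam * y := by
    field_simp; ring
  rw [e1] at this
  refine this.trans (le_of_eq ?_)
  rw [Real.cosh_eq, Real.sinh_eq]
  field_simp; ring

lemma mgf_one {X : Type} [Fintype X] [Nonempty X] (G : X → ℝ) {c : ℝ} (hc : 0 < c) (lam : ℝ)
    (hG : ∀ x x', |G x - G x'| ≤ c) :
    𝔼 x, Real.exp (lam * (G x - 𝔼 x', G x')) ≤ Real.exp (lam ^ 2 * c ^ 2 / 2) := by
  have hy : ∀ x, |G x - 𝔼 x', G x'| ≤ c := by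
    intro x
    have : G x - 𝔼 x', G x' = 𝔼 x', (G x - G x') := by
      rw [Finset.expect_sub_distrib, Fintype.expect_const]
    rw [this]
    refine (Finset.abs_expect_le _ _).trans ?_
    exact Finset.expect_le Finset.univ_nonempty fun x' _ => hG x x'
  calc 𝔼 x, Real.exp (lam * (G x - 𝔼 x', G x'))
      ≤ 𝔼 x, (Real.cosh (lam * c) + (G x - 𝔼 x', G x') / c * Real.sinh (lam * c)) :=
        Finset.expect_le_expect fun x _ => exp_le_chord hc (hy x)
    _ = Real.cosh (lam * c) := by
        simp only [div_eq_mul_inv]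
        rw [Finset.expect_add_distrib, Fintype.expect_const, ← Finset.expect_mul,
          ← Finset.expect_mul, Finset.expect_sub_distrib, Fintype.expect_const]
        simp
    _ ≤ _ := by
        have := Real.cosh_le_exp_half_sq (lam * c)
        rwa [mul_pow] at this

lemma expect_cons {X : Type} [Fintype X] (N : ℕ) (F : (Fin (N + 1) → X) → ℝ) :
    𝔼 T, F T = 𝔼 x : X, 𝔼 T : Fin N → X, F (Fin.cons x T) := by
  rw [← Finset.expect_product', Finset.univ_product_univ]
  exact (Fintype.expect_equiv (Fin.consEquiv fun _ => X) _ _ fun p => rfl).symm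

lemma mgf_many {X : Type} [Fintype X] [Nonempty X] {c : ℝ} (hc : 0 < c) (lam : ℝ) :
    ∀ (N : ℕ) (F : (Fin N → X) → ℝ), (∀ T j x, |F (Function.update T j x) - F T| ≤ c) →
    𝔼 T, Real.exp (lam * (F T - 𝔼 T', F T')) ≤ Real.exp (N * (lam ^ 2 * c ^ 2 / 2)) := by
  intro N
  induction N with
  | zero =>
    intro F _
    have h0 : ∀ T, F T - 𝔼 T', F T' = 0 := by
      intro T
      have : (fun T' => F T') = fun _ => F T := by
        funext T'; rw [Subsingleton.elim T' T]
      rw [show (𝔼 T', F T') = 𝔼 _T' : Fin 0 → X, F T from by rw [this], Fintype.expect_const]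
      ring
    simp [h0]
  | succ N ih =>
    intro F hF
    set G : X → ℝ := fun x => 𝔼 T : Fin N → X, F (Fin.cons x T) with hGdef
    have hG : ∀ x x', |G x - G x'| ≤ c := by
      intro x x'
      simp only [hGdef]
      rw [← Finset.expect_sub_distrib]
      refine (Finset.abs_expect_le _ _).trans ?_
      refine Finset.expect_le Finset.univ_nonempty fun T _ => ?_
      have := hF (Fin.cons x' T) 0 x
      rwa [Fin.update_cons_zero] at this
    have hm : 𝔼 T', F T' = 𝔼 x, G x := expect_cons N F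
    rw [expect_cons, hm]
    calc 𝔼 x : X, 𝔼 T : Fin N → X, Real.exp (lam * (F (Fin.cons x T) - 𝔼 x, G x))
        ≤ 𝔼 x : X, Real.exp (lam * (G x - 𝔼 x, G x)) *
            Real.exp (N * (lam ^ 2 * c ^ 2 / 2)) := by
          refine Finset.expect_le_expect fun x _ => ?_
          have h1 := ih (fun T => F (Fin.cons x T)) (by
            intro T j y
            have := hF (Fin.cons x T) j.succ y
            rwa [← Fin.cons_update] at this)
          have h2 : ∀ T : Fin N → X, Real.exp (lam * (F (Fin.cons x T) - 𝔼 x, G x))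
              = Real.exp (lam * (G x - 𝔼 x, G x)) * Real.exp (lam * (F (Fin.cons x T) - G x)) := by
            intro T; rw [← Real.exp_add]; congr 1; ring
          simp only [h2]
          rw [← Finset.mul_expect]
          exact mul_le_mul_of_nonneg_left h1 (Real.exp_nonneg _)
      _ ≤ Real.exp (lam ^ 2 * c ^ 2 / 2) * Real.exp (N * (lam ^ 2 * c ^ 2 / 2)) := by
          rw [← Finset.expect_mul]
          exact mul_le_mul_of_nonneg_right (mgf_one G hc lam hG) (Real.exp_nonneg _)
      _ = _ := by rw [← Real.exp_add]; congr 1; push_cast; ring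

lemma exists_close {X ι : Type} [Fintype X] [Nonempty X] [Fintype ι] {c : ℝ} (hc : 0 < c)
    (lam : ℝ) (N : ℕ) (F : ι → (Fin N → X) → ℝ)
    (hF : ∀ i T j x, |F i (Function.update T j x) - F i T| ≤ c) :
    ∃ T, ∀ i, Real.exp (lam * |F i T - 𝔼 T', F i T'|)
      ≤ 2 * Fintype.card ι * Real.exp (N * (lam ^ 2 * c ^ 2 / 2)) := by
  have h : 𝔼 T, ∑ i, (Real.exp (lam * (F i T - 𝔼 T', F i T'))
      + Real.exp ((-lam) * (F i T - 𝔼 T', F i T')))
      ≤ 2 * Fintype.card ι * Real.exp (N * (lam ^ 2 * c ^ 2 / 2)) := by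
    rw [Finset.expect_sum_comm]
    calc _ ≤ ∑ _i : ι, 2 * Real.exp (N * (lam ^ 2 * c ^ 2 / 2)) := by
          refine Finset.sum_le_sum fun i _ => ?_
          rw [Finset.expect_add_distrib]
          have h1 := mgf_many hc lam N (F i) (hF i)
          have h2 := mgf_many hc (-lam) N (F i) (hF i)
          rw [neg_sq] at h2
          linarith
      _ = _ := by simp; ring
  obtain ⟨T, -, hT⟩ := Finset.exists_le_of_expect_le Finset.univ_nonempty h
  refine ⟨T, fun i => le_trans ?_ hT⟩
  refine le_trans ?_ (Finset.single_le_sum (f := fun i => Real.exp (lam * (F i T - 𝔼 T', F i T'))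
      + Real.exp ((-lam) * (F i T - 𝔼 T', F i T'))) (fun j _ => by positivity) (Finset.mem_univ i))
  rcases abs_cases (F i T - 𝔼 T', F i T') with ⟨h1, _⟩ | ⟨h1, _⟩
  · rw [h1]; have := Real.exp_pos (-lam * (F i T - 𝔼 T', F i T')); linarith
  · rw [h1]
    have := Real.exp_pos (lam * (F i T - 𝔼 T', F i T'))
    have e : lam * -(F i T - 𝔼 T', F i T') = -lam * (F i T - 𝔼 T', F i T') := by ring
    rw [e]; linarith

end Pool.Agent.Lib.MP_b26fee_pr
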