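import Pool.Agent.Lib.MP_b26fee_pr.Poincare
import Pool.Agent.Lib.MP_b26fee_pr.McDiarmid

set_option linter.unusedSectionVars false

namespace Pool.Agent.Lib.MP_b26fee_pr

open Finset Function
open scoped BigOperators

variable {α V : Type} [Fintype α] [DecidableEq α] [Fintype V] [DecidableEq V]

def bt (b : Bool) : ℝ := if b then 1 else 0

def andS (S : Finset V) (ω : V → Bool) : ℝ := ∏ v ∈ S, bt (ω v)

def supp (e : α ↪ V) {k : ℕ} (τ : Fin k → α) : Finset V := univ.image fun i => e (τ i)

def ind (e : α ↪ V) {k : ℕ} (τ : Fin k → α) (ω : V → Bool) : ℝ :=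
  if Injective τ then andS (supp e τ) ω else 0

def gT (e : α ↪ V) {k N : ℕ} (T : Fin N → Fin k → α) (ω : V → Bool) : ℝ :=
  ∏ j, (1 - ind e (T j) ω)

def fT (e : α ↪ V) {k N : ℕ} (T : Fin N → Fin k → α) (ω : V → Bool) : Bool :=
  decide (∃ j, Injective (T j) ∧ ∀ i, ω (e (T j i)) = true)

lemma andS_eq_prod (S : Finset V) (ω : V → Bool) :
    andS S ω = ∏ i, (if i ∈ S then bt (ω i) else 1) := by
  rw [andS, Finset.prod_ite_mem]; simp

lemma andS_eq (S : Finset V) (ω : V → Bool) :
    andS S ω = if ∀ v ∈ S, ω v = true then 1 else 0 := by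
  split_ifs with h
  · exact Finset.prod_eq_one fun v hv => by simp [bt, h v hv]
  · push Not at h
    obtain ⟨v, hv, hω⟩ := h
    exact Finset.prod_eq_zero hv (by simp [bt, hω])

variable (e : α ↪ V) {k N : ℕ}

lemma ind_eq (τ : Fin k → α) (ω : V → Bool) :
    ind e τ ω = if Injective τ ∧ ∀ i, ω (e (τ i)) = true then 1 else 0 := by
  rw [ind, andS_eq]
  by_cases h : Injective τ <;> simp [h, supp]

lemma ind_nonneg (τ : Fin k → α) (ω : V → Bool) : 0 ≤ ind e τ ω := by
  rw [ind_eq]; split_ifs <;> norm_num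

lemma ind_le_one (τ : Fin k → α) (ω : V → Bool) : ind e τ ω ≤ 1 := by
  rw [ind_eq]; split_ifs <;> norm_num

lemma gT_eq (T : Fin N → Fin k → α) (ω : V → Bool) :
    gT e T ω = if fT e T ω then 0 else 1 := by
  simp only [fT, decide_eq_true_eq]
  split_ifs with h
  · obtain ⟨j, hj⟩ := h
    exact Finset.prod_eq_zero (Finset.mem_univ j) (by rw [ind_eq, if_pos hj]; ring)
  · refine Finset.prod_eq_one fun j _ => ?_
    rw [ind_eq, if_neg fun hj => h ⟨j, hj⟩]; ring

lemma sgn_fT (T : Fin N → Fin k → α) (ω : V → Bool) : sgn (fT e T) ω = 1 - 2 * gT e T ω := by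
  rw [gT_eq, sgn]; split_ifs <;> norm_num

lemma fT_mono (T : Fin N → Fin k → α) : Monotone (fT e T) := by
  intro ω ω' h
  by_cases hf : fT e T ω = true
  · have : fT e T ω' = true := by
      simp only [fT, decide_eq_true_eq] at hf ⊢
      obtain ⟨j, hj, hi⟩ := hf
      refine ⟨j, hj, fun i => ?_⟩
      have := h (e (T j i))
      rw [hi i] at this
      exact top_le_iff.1 this
    rw [hf, this]
  · have : fT e T ω = false := by simpa using hf
    rw [this]; exact bot_le

lemma fT_piecewise (T : Fin N → Fin k → α) (ω η : V → Bool) :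
    fT e T ((univ.map e).piecewise ω η) = fT e T ω := by
  have : ∀ a, (univ.map e).piecewise ω η (e a) = ω (e a) := fun a =>
    Finset.piecewise_eq_of_mem _ _ _ (by simp)
  simp only [fT, this]

lemma W_range (T : Fin N → Fin k → α) :
    W (sgn (fT e T)) (univ.map e) = W (sgn (fT e T)) univ := by
  simp only [W, sgn, fT_piecewise, Finset.piecewise_univ]

lemma W_affine (g h : (V → Bool) → ℝ) (hg : ∀ ω, g ω = 1 - 2 * h ω) (U : Finset V) :
    W g U = 1 - 4 * avg h + 4 * W h U := by
  have h1 : W g U = avg fun ω => ((1 - 2 * h ω) - 2 * avg (fun η => h (U.piecewise ω η)))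
      + 4 * avg fun η => h ω * h (U.piecewise ω η) := by
    rw [W]; congr 1; funext ω
    rw [← avg_const_mul, ← avg_const_mul, ← avg_const (V := V) (1 - 2 * h ω), ← avg_sub,
      ← avg_add]
    congr 1; funext η
    rw [hg, hg]; ring
  rw [h1, avg_add, avg_sub, avg_sub, avg_const, avg_const_mul, avg_const_mul, avg_const_mul,
    avg_avg_piecewise, W]
  ring

lemma card_supp {τ : Fin k → α} (h : Injective τ) : (supp e τ).card = k := by
  have h' : Injective fun i => e (τ i) := e.injective.comp h
  rw [supp, Finset.card_image_of_injective _ h']; simp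

lemma avg_andS (S : Finset V) : avg (andS S) = (1 / 2) ^ S.card := by
  rw [avg_prod' (fun i b => if i ∈ S then bt b else 1) (andS_eq_prod S)]
  have : ∀ i, ((if i ∈ S then bt true else 1) + if i ∈ S then bt false else 1) / 2
      = if i ∈ S then (1 / 2 : ℝ) else 1 := by
    intro i; split_ifs <;> simp [bt]
  simp only [this]
  rw [Finset.prod_ite_mem]; simp

lemma avg_ind (τ : Fin k → α) :
    avg (ind e τ) = if Injective τ then (1 / 2) ^ k else 0 := by
  by_cases h : Injective τ
  · have : ind e τ = andS (supp e τ) := by funext ω; simp [ind, h]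
    rw [this, avg_andS, card_supp e h, if_pos h]
  · have : ind e τ = fun _ => 0 := by funext ω; simp [ind, h]
    rw [this, avg_const, if_neg h]

lemma avg_ind_le (τ : Fin k → α) : avg (ind e τ) ≤ (1 / 2) ^ k := by
  rw [avg_ind]; split_ifs
  · exact le_rfl
  · positivity

lemma gT_nonneg (T : Fin N → Fin k → α) (ω : V → Bool) : 0 ≤ gT e T ω := by
  rw [gT_eq]; split_ifs <;> norm_num

lemma gT_le_one (T : Fin N → Fin k → α) (ω : V → Bool) : gT e T ω ≤ 1 := by
  rw [gT_eq]; split_ifs <;> norm_num

lemma gT_update (T : Fin N → Fin k → α) (j : Fin N) (x : Fin k → α) (ω : V → Bool) :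
    |gT e (update T j x) ω - gT e T ω| ≤ ind e x ω + ind e (T j) ω := by
  rw [gT, gT, ← Finset.mul_prod_erase _ _ (Finset.mem_univ j),
    ← Finset.mul_prod_erase univ (fun j => 1 - ind e (T j) ω) (Finset.mem_univ j)]
  have h1 : ∏ j' ∈ univ.erase j, (1 - ind e (update T j x j') ω)
      = ∏ j' ∈ univ.erase j, (1 - ind e (T j') ω) :=
    Finset.prod_congr rfl fun j' hj' => by rw [update_of_ne (Finset.ne_of_mem_erase hj')]
  rw [h1, update_self]
  have h2 : 0 ≤ ∏ j' ∈ univ.erase j, (1 - ind e (T j') ω) :=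
    Finset.prod_nonneg fun j' _ => by have := ind_le_one e (T j') ω; linarith
  have h3 : ∏ j' ∈ univ.erase j, (1 - ind e (T j') ω) ≤ 1 :=
    Finset.prod_le_one (fun j' _ => by have := ind_le_one e (T j') ω; linarith)
      fun j' _ => by have := ind_nonneg e (T j') ω; linarith
  have h4 := ind_nonneg e x ω
  have h5 := ind_nonneg e (T j) ω
  rw [abs_le]; constructor <;> nlinarith

lemma W_update (T : Fin N → Fin k → α) (j : Fin N) (x : Fin k → α) (U : Finset V) :
    |W (gT e (update T j x)) U - W (gT e T) U| ≤ 4 * (1 / 2) ^ k := by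
  rw [W, W, ← avg_sub]
  refine (abs_avg_le _).trans ?_
  calc _ ≤ avg fun ω => avg fun η => (ind e x ω + ind e (T j) ω) +
        (ind e x (U.piecewise ω η) + ind e (T j) (U.piecewise ω η)) := by
        refine avg_mono fun ω => ?_
        rw [← avg_sub]
        refine (abs_avg_le _).trans (avg_mono fun η => ?_)
        have h1 := gT_update e T j x ω
        have h2 := gT_update e T j x (U.piecewise ω η)
        have a0 := gT_nonneg e (update T j x) ω
        have a1 := gT_le_one e (update T j x) ω
        have b0 := gT_nonneg e T (U.piecewise ω η)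
        have b1 := gT_le_one e T (U.piecewise ω η)
        set a := gT e (update T j x) ω
        set a' := gT e T ω
        set b := gT e (update T j x) (U.piecewise ω η)
        set b' := gT e T (U.piecewise ω η)
        have : a * b - a' * b' = a * (b - b') + (a - a') * b' := by ring
        rw [this]
        refine (abs_add_le _ _).trans ?_
        rw [abs_mul, abs_mul, abs_of_nonneg a0, abs_of_nonneg b0]
        have := abs_nonneg (b - b')
        have := abs_nonneg (a - a')
        nlinarith
    _ = (avg (ind e x) + avg (ind e (T j))) + (avg (ind e x) + avg (ind e (T j))) := by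
        simp only [avg_add, avg_const]
        rw [avg_avg_piecewise, avg_avg_piecewise]
    _ ≤ _ := by
        have := avg_ind_le e x
        have := avg_ind_le e (T j)
        linarith

lemma avg_expect {ι : Type} [Fintype ι] (F : ι → (V → Bool) → ℝ) :
    avg (fun ω => 𝔼 i, F i ω) = 𝔼 i, avg (F i) := by
  simp only [avg_eq]
  exact Finset.expect_comm _ _ _

lemma W_andS (S U : Finset V) :
    W (andS S) U = ∏ v, (if v ∈ S then (if v ∈ U then (1 / 2 : ℝ) else 1 / 4) else 1) := by
  have h1 : ∀ ω : V → Bool, avg (fun η => andS S ω * andS S (U.piecewise ω η))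
      = ∏ v, (if v ∈ S then bt (ω v) * (if v ∈ U then bt (ω v) else 1 / 2) else 1) := by
    intro ω
    rw [avg_prod' (fun v b => if v ∈ S then bt (ω v) * bt (if v ∈ U then ω v else b) else 1)]
    · refine Finset.prod_congr rfl fun v _ => ?_
      by_cases hS : v ∈ S <;> by_cases hU : v ∈ U <;> simp [hS, hU, bt]
      split_ifs <;> simp
    · intro η
      rw [andS_eq_prod, andS_eq_prod, ← Finset.prod_mul_distrib]
      refine Finset.prod_congr rfl fun v _ => ?_
      by_cases hS : v ∈ S <;> by_cases hU : v ∈ U <;> simp [hS, hU, Finset.piecewise]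
  rw [W]
  simp only [h1]
  rw [avg_prod' (fun v b => if v ∈ S then bt b * (if v ∈ U then bt b else 1 / 2) else 1)
    (fun _ => rfl)]
  refine Finset.prod_congr rfl fun v _ => ?_
  by_cases hS : v ∈ S <;> by_cases hU : v ∈ U <;> simp [hS, hU, bt]
  norm_num

lemma bern_W_andS (ε : ℝ) (S : Finset V) :
    bern ε (fun R => W (andS S) Rᶜ) = (1 / 2 - ε / 4) ^ S.card := by
  have h := bern_prod ε (fun v => if v ∈ S then (1 / 4 : ℝ) else 1)
    (fun v => if v ∈ S then (1 / 2 : ℝ) else 1)
  have h1 : (fun R : Finset V => W (andS S) Rᶜ) = fun U : Finset V =>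
      (∏ i ∈ U, if i ∈ S then (1 / 4 : ℝ) else 1) * ∏ i ∈ univ \ U,
        if i ∈ S then (1 / 2 : ℝ) else 1 := by
    funext R
    rw [W_andS, ← Finset.prod_sdiff (Finset.subset_univ R), mul_comm]
    congr 1
    · refine Finset.prod_congr rfl fun v hv => ?_
      simp [hv]
    · refine Finset.prod_congr rfl fun v hv => ?_
      simp [(Finset.mem_sdiff.1 hv).2]
  rw [h1, h]
  have h2 : ∀ i, ε * (if i ∈ S then (1 / 4 : ℝ) else 1) + (1 - ε) * (if i ∈ S then (1 / 2 : ℝ) else 1)
      = if i ∈ S then (1 / 2 - ε / 4) else 1 := by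
    intro i; split_ifs <;> ring
  simp only [h2]
  rw [Finset.prod_ite_mem]; simp

noncomputable def Q (e : α ↪ V) (k : ℕ) (U : Finset V) : ℝ := 𝔼 τ : Fin k → α, W (ind e τ) U

lemma bern_Q_le [Nonempty α] {ε : ℝ} (h1 : ε ≤ 1) :
    bern ε (fun R => Q e k Rᶜ) ≤ (1 / 2 - ε / 4) ^ k := by
  simp only [Q]
  rw [bern_expect]
  refine Finset.expect_le Finset.univ_nonempty fun τ _ => ?_
  by_cases h : Injective τ
  · have : ind e τ = andS (supp e τ) := by funext ω; simp [ind, h]
    rw [this, bern_W_andS, card_supp e h]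
  · have : ind e τ = fun _ => 0 := by funext ω; simp [ind, h]
    simp only [this, W, zero_mul, avg_const, bern_const]
    have : 0 ≤ 1 / 2 - ε / 4 := by linarith
    positivity

lemma Q_empty_le [Nonempty α] : Q e k ∅ ≤ ((1 / 2) ^ k) ^ 2 := by
  refine Finset.expect_le Finset.univ_nonempty fun τ _ => ?_
  rw [W_empty]
  exact pow_le_pow_left₀ (avg_nonneg (ind_nonneg e τ)) (avg_ind_le e τ) 2

end Pool.Agent.Lib.MP_b26fee_pr
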