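import Pool.Agent.Lib.MP_b26fee_pr.Defs

set_option linter.unusedSectionVars false

namespace Pool.Agent.Lib.MP_b26fee_pr

open Finset
open scoped BigOperators

variable {V : Type} [Fintype V] [DecidableEq V]

lemma avg_eq (g : (V → Bool) → ℝ) : avg g = 𝔼 ω, g ω := by
  rw [avg, Finset.expect_eq_sum_div_card]
  simp

lemma avg_prod (φ : V → Bool → ℝ) :
    avg (fun η : V → Bool => ∏ i, φ i (η i)) = ∏ i, ((φ i true + φ i false) / 2) := by
  have h := Finset.prod_univ_sum (fun _ : V => (univ : Finset Bool)) φ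
  rw [Fintype.piFinset_univ] at h
  rw [avg, ← h, Finset.prod_div_distrib]
  simp

lemma avg_prod' (φ : V → Bool → ℝ) {g : (V → Bool) → ℝ} (h : ∀ η, g η = ∏ i, φ i (η i)) :
    avg g = ∏ i, ((φ i true + φ i false) / 2) := by
  rw [← avg_prod φ]; congr 1; funext η; exact h η

lemma avg_const (c : ℝ) : avg (fun _ : V → Bool => c) = c := by
  rw [avg_eq]; exact Fintype.expect_const c

lemma avg_add (g h : (V → Bool) → ℝ) : avg (fun ω => g ω + h ω) = avg g + avg h := by
  simp only [avg_eq, Finset.expect_add_distrib]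

lemma avg_sub (g h : (V → Bool) → ℝ) : avg (fun ω => g ω - h ω) = avg g - avg h := by
  simp only [avg_eq, Finset.expect_sub_distrib]

lemma avg_const_mul (c : ℝ) (g : (V → Bool) → ℝ) : avg (fun ω => c * g ω) = c * avg g := by
  simp only [avg_eq, Finset.mul_expect]

lemma avg_mul_const (c : ℝ) (g : (V → Bool) → ℝ) : avg (fun ω => g ω * c) = avg g * c := by
  simp only [avg_eq, Finset.expect_mul]

lemma avg_sum {ι : Type} (s : Finset ι) (g : ι → (V → Bool) → ℝ) :
    avg (fun ω => ∑ i ∈ s, g i ω) = ∑ i ∈ s, avg (g i) := by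
  simp only [avg_eq]
  exact Finset.expect_sum_comm _ _ _

lemma avg_mono {g h : (V → Bool) → ℝ} (hle : ∀ ω, g ω ≤ h ω) : avg g ≤ avg h := by
  simp only [avg_eq]
  exact Finset.expect_le_expect fun ω _ => hle ω

lemma avg_nonneg {g : (V → Bool) → ℝ} (hle : ∀ ω, 0 ≤ g ω) : 0 ≤ avg g := by
  have := avg_mono (g := fun _ => 0) (h := g) hle
  rwa [avg_const] at this

lemma abs_avg_le (g : (V → Bool) → ℝ) : |avg g| ≤ avg fun ω => |g ω| := by
  simp only [avg_eq]
  exact Finset.abs_expect_le _ _

def sg (b : Bool) : ℝ := if b then 1 else -1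

def chi (S : Finset V) (ω : V → Bool) : ℝ := ∏ i ∈ S, sg (ω i)

noncomputable def hat (g : (V → Bool) → ℝ) (S : Finset V) : ℝ := avg fun ω => g ω * chi S ω

noncomputable def W (g : (V → Bool) → ℝ) (U : Finset V) : ℝ :=
  avg fun ω => avg fun η => g ω * g (U.piecewise ω η)

lemma chi_eq_prod (S : Finset V) (ω : V → Bool) :
    chi S ω = ∏ i, (if i ∈ S then sg (ω i) else 1) := by
  rw [chi, Finset.prod_ite_mem]; simp

lemma sum_chi_chi (ω ω' : V → Bool) :
    ∑ S : Finset V, chi S ω * chi S ω' = if ω = ω' then 2 ^ Fintype.card V else 0 := by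
  have h := Finset.prod_one_add (s := (univ : Finset V)) (f := fun i => sg (ω i) * sg (ω' i))
  rw [Finset.powerset_univ] at h
  have h2 : ∑ S : Finset V, chi S ω * chi S ω' = ∏ i, (1 + sg (ω i) * sg (ω' i)) := by
    rw [h]
    refine Finset.sum_congr rfl fun S _ => ?_
    rw [chi, chi, Finset.prod_mul_distrib]
  rw [h2]
  split_ifs with hω
  · subst hω
    have : ∀ i, 1 + sg (ω i) * sg (ω i) = 2 := by
      intro i; cases ω i <;> simp [sg] <;> norm_num
    simp [this]
  · obtain ⟨i, hi⟩ := Function.ne_iff.1 hω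
    refine Finset.prod_eq_zero (Finset.mem_univ i) ?_
    revert hi
    cases ω i <;> cases ω' i <;> simp [sg]

lemma inversion (g : (V → Bool) → ℝ) (ω : V → Bool) :
    g ω = ∑ S : Finset V, hat g S * chi S ω := by
  have : ∑ S : Finset V, hat g S * chi S ω
      = avg fun ω' => g ω' * ∑ S : Finset V, chi S ω * chi S ω' := by
    simp only [Finset.mul_sum]
    rw [avg_sum]
    refine Finset.sum_congr rfl fun S _ => ?_
    rw [hat, ← avg_mul_const]
    congr 1; funext ω'; ring
  rw [this]
  simp only [sum_chi_chi]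
  rw [avg]
  simp only [mul_ite, mul_zero]
  rw [Finset.sum_ite_eq]
  simp

lemma avg_chi_piecewise (S U : Finset V) (ω : V → Bool) :
    avg (fun η => chi S (U.piecewise ω η)) = if S ⊆ U then chi S ω else 0 := by
  have h1 := avg_prod' (fun i b => if i ∈ S then sg (if i ∈ U then ω i else b) else 1)
    (g := fun η => chi S (U.piecewise ω η)) (by
    intro η
    rw [chi_eq_prod]
    refine Finset.prod_congr rfl fun i _ => ?_
    by_cases hU : i ∈ U <;> simp [Finset.piecewise, hU])
  rw [h1]
  split_ifs with hS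
  · rw [chi_eq_prod]
    refine Finset.prod_congr rfl fun i _ => ?_
    by_cases hi : i ∈ S
    · simp [hi, hS hi]
    · simp [hi]
  · obtain ⟨i, hi, hiU⟩ := Finset.not_subset.1 hS
    refine Finset.prod_eq_zero (Finset.mem_univ i) ?_
    simp [hi, hiU, sg]

lemma condAvg_eq (U : Finset V) (g : (V → Bool) → ℝ) (ω : V → Bool) :
    condAvg U g ω = ∑ S ∈ U.powerset, hat g S * chi S ω := by
  have h1 : condAvg U g ω = avg fun η => ∑ S : Finset V, hat g S * chi S (U.piecewise ω η) := by
    rw [condAvg]; congr 1; funext η; exact inversion g _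
  rw [h1, avg_sum]
  simp only [avg_const_mul, avg_chi_piecewise, mul_ite, mul_zero]
  rw [← Finset.sum_filter]
  congr 1
  ext S; simp

lemma W_eq (g : (V → Bool) → ℝ) (U : Finset V) : W g U = ∑ S ∈ U.powerset, hat g S ^ 2 := by
  have h1 : W g U = avg fun ω => g ω * condAvg U g ω := by
    rw [W]; congr 1; funext ω; rw [avg_const_mul]; rfl
  rw [h1]
  simp only [condAvg_eq, Finset.mul_sum]
  rw [avg_sum]
  refine Finset.sum_congr rfl fun S _ => ?_
  have : (fun ω => g ω * (hat g S * chi S ω)) = fun ω => hat g S * (g ω * chi S ω) := by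
    funext ω; ring
  rw [this, avg_const_mul, sq]; rfl

lemma hat_empty (g : (V → Bool) → ℝ) : hat g ∅ = avg g := by
  simp [hat, chi]

lemma W_empty (g : (V → Bool) → ℝ) : W g ∅ = avg g ^ 2 := by
  rw [W_eq]; simp [hat_empty]

lemma W_univ (g : (V → Bool) → ℝ) : W g univ = avg fun ω => g ω ^ 2 := by
  simp [W, avg_const, sq]

lemma avg_chi (S : Finset V) : avg (chi S) = if S = ∅ then 1 else 0 := by
  have := avg_chi_piecewise S ∅ (fun _ => true)
  simp only [Finset.piecewise_empty, Finset.subset_empty] at this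
  rw [show chi S = fun η => chi S η from rfl, this]
  split_ifs with h
  · simp [h, chi]
  · rfl

lemma avg_condAvg (U : Finset V) (g : (V → Bool) → ℝ) : avg (condAvg U g) = avg g := by
  have : condAvg U g = fun ω => ∑ S ∈ U.powerset, hat g S * chi S ω := by
    funext ω; exact condAvg_eq U g ω
  rw [this, avg_sum]
  simp only [avg_const_mul]
  have h2 : ∀ S : Finset V, avg (fun ω => chi S ω) = if S = ∅ then 1 else 0 := avg_chi
  simp only [h2, mul_ite, mul_one, mul_zero]
  rw [Finset.sum_ite_eq']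
  simp [hat_empty]

lemma avg_avg_piecewise (U : Finset V) (g : (V → Bool) → ℝ) :
    avg (fun ω => avg fun η => g (U.piecewise ω η)) = avg g := avg_condAvg U g

lemma avg_chi_chi (S S' : Finset V) :
    avg (fun ω => chi S ω * chi S' ω) = if S = S' then 1 else 0 := by
  have h1 := avg_prod' (fun i b => (if i ∈ S then sg b else 1) * (if i ∈ S' then sg b else 1))
    (g := fun ω => chi S ω * chi S' ω) (by
    intro η
    rw [chi_eq_prod, chi_eq_prod, ← Finset.prod_mul_distrib])
  rw [h1]
  split_ifs with hS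
  · subst hS
    refine Finset.prod_eq_one fun i _ => ?_
    by_cases hi : i ∈ S <;> simp [hi, sg]
  · have : ∃ i, ¬ (i ∈ S ↔ i ∈ S') := by
      by_contra hc
      push Not at hc
      exact hS (Finset.ext hc)
    obtain ⟨i, hi⟩ := this
    refine Finset.prod_eq_zero (Finset.mem_univ i) ?_
    by_cases h1 : i ∈ S <;> by_cases h2 : i ∈ S' <;> simp_all [sg]

lemma var_eq (g : (V → Bool) → ℝ) : var g = avg (fun ω => g ω ^ 2) - avg g ^ 2 := by
  have : (fun ω => (g ω - avg g) ^ 2) = fun ω => (g ω ^ 2 - (2 * avg g) * g ω) + avg g ^ 2 := by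
    funext ω; ring
  rw [var, this, avg_add, avg_sub, avg_const_mul, avg_const]
  ring

lemma var_eq_W (g : (V → Bool) → ℝ) : var g = W g univ - W g ∅ := by
  rw [var_eq, W_univ, W_empty]

lemma var_condAvg (U : Finset V) (g : (V → Bool) → ℝ) :
    var (condAvg U g) = W g U - W g ∅ := by
  rw [var_eq, avg_condAvg, W_empty, W_eq]
  congr 1
  have : (fun ω => condAvg U g ω ^ 2) = fun ω => ∑ S ∈ U.powerset, ∑ S' ∈ U.powerset,
      (hat g S * hat g S') * (chi S ω * chi S' ω) := by
    funext ω
    rw [condAvg_eq, sq, Finset.sum_mul_sum]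
    refine Finset.sum_congr rfl fun S _ => Finset.sum_congr rfl fun S' _ => by ring
  rw [this, avg_sum]
  refine Finset.sum_congr rfl fun S hS => ?_
  rw [avg_sum]
  simp only [avg_const_mul, avg_chi_chi, mul_ite, mul_one, mul_zero]
  rw [Finset.sum_ite_eq]
  simp only [hS, if_true, sq]

lemma W_mono (g : (V → Bool) → ℝ) {U U' : Finset V} (h : U ⊆ U') : W g U ≤ W g U' := by
  rw [W_eq, W_eq]
  exact Finset.sum_le_sum_of_subset_of_nonneg (Finset.powerset_mono.2 h)
    fun _ _ _ => sq_nonneg _

lemma bern_prod (δ : ℝ) (a b : V → ℝ) :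
    bern δ (fun U => (∏ i ∈ U, a i) * ∏ i ∈ univ \ U, b i) = ∏ i, (δ * a i + (1 - δ) * b i) := by
  rw [Finset.prod_add, Finset.powerset_univ, bern]
  refine Finset.sum_congr rfl fun U _ => ?_
  rw [Finset.prod_mul_distrib, Finset.prod_mul_distrib, Finset.prod_const, Finset.prod_const,
    Finset.card_univ_sdiff]
  ring

lemma bern_const (δ c : ℝ) : bern δ (fun _ : Finset V => c) = c := by
  have h := bern_prod (V := V) δ (fun _ => 1) (fun _ => 1)
  simp only [Finset.prod_const_one, mul_one, add_sub_cancel] at h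
  have : bern δ (fun _ : Finset V => c) = bern δ (fun _ : Finset V => (1 : ℝ)) * c := by
    simp only [bern, Finset.sum_mul, mul_one]
  rw [this, h, one_mul]

lemma bern_add (δ : ℝ) (F G : Finset V → ℝ) :
    bern δ (fun U => F U + G U) = bern δ F + bern δ G := by
  simp only [bern, mul_add, Finset.sum_add_distrib]

lemma bern_sub (δ : ℝ) (F G : Finset V → ℝ) :
    bern δ (fun U => F U - G U) = bern δ F - bern δ G := by
  simp only [bern, mul_sub, Finset.sum_sub_distrib]

lemma bern_const_mul (δ c : ℝ) (F : Finset V → ℝ) :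
    bern δ (fun U => c * F U) = c * bern δ F := by
  simp only [bern, Finset.mul_sum]
  exact Finset.sum_congr rfl fun U _ => by ring

lemma bern_div (δ c : ℝ) (F : Finset V → ℝ) :
    bern δ (fun U => F U / c) = bern δ F / c := by
  simp only [bern, Finset.sum_div]
  exact Finset.sum_congr rfl fun U _ => by ring

lemma bern_sum {ι : Type} (δ : ℝ) (s : Finset ι) (F : ι → Finset V → ℝ) :
    bern δ (fun U => ∑ i ∈ s, F i U) = ∑ i ∈ s, bern δ (F i) := by
  simp only [bern, Finset.mul_sum]
  exact Finset.sum_comm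

lemma bern_expect {ι : Type} [Fintype ι] (δ : ℝ) (F : ι → Finset V → ℝ) :
    bern δ (fun U => 𝔼 i, F i U) = 𝔼 i, bern δ (F i) := by
  simp only [bern, Finset.mul_expect]
  exact (Finset.expect_sum_comm _ _ _).symm

lemma bern_mono {δ : ℝ} (h0 : 0 ≤ δ) (h1 : δ ≤ 1) {F G : Finset V → ℝ} (h : ∀ U, F U ≤ G U) :
    bern δ F ≤ bern δ G := by
  refine Finset.sum_le_sum fun U _ => mul_le_mul_of_nonneg_left (h U) ?_
  have : 0 ≤ 1 - δ := by linarith
  positivity

lemma bern_subset (δ : ℝ) (S : Finset V) :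
    bern δ (fun U => if S ⊆ U then 1 else 0) = δ ^ S.card := by
  have h := bern_prod (V := V) δ (fun _ => 1) (fun i => if i ∈ S then 0 else 1)
  have h1 : (fun U : Finset V => (∏ _i ∈ U, (1 : ℝ)) * ∏ i ∈ univ \ U, if i ∈ S then (0 : ℝ) else 1)
      = fun U => if S ⊆ U then 1 else 0 := by
    funext U
    rw [Finset.prod_const_one, one_mul]
    split_ifs with hS
    · refine Finset.prod_eq_one fun i hi => ?_
      have : i ∉ S := fun h => (Finset.mem_sdiff.1 hi).2 (hS h)
      simp [this]
    · obtain ⟨i, hi, hiU⟩ := Finset.not_subset.1 hS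
      exact Finset.prod_eq_zero (i := i) (by simp [hiU]) (by simp [hi])
  rw [h1] at h
  rw [h]
  have h2 : ∀ i, δ * 1 + (1 - δ) * (if i ∈ S then (0 : ℝ) else 1) = if i ∈ S then δ else 1 := by
    intro i; split_ifs <;> ring
  simp only [h2]
  rw [Finset.prod_ite_mem]
  simp

lemma bern_powerset (δ : ℝ) (a : Finset V → ℝ) :
    bern δ (fun U => ∑ S ∈ U.powerset, a S) = ∑ S : Finset V, δ ^ S.card * a S := by
  have : (fun U : Finset V => ∑ S ∈ U.powerset, a S)
      = fun U => ∑ S : Finset V, a S * if S ⊆ U then 1 else 0 := by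
    funext U
    simp only [mul_ite, mul_one, mul_zero]
    rw [← Finset.sum_filter]
    congr 1
    ext S; simp
  rw [this, bern_sum]
  refine Finset.sum_congr rfl fun S _ => ?_
  rw [bern_const_mul, bern_subset, mul_comm]

end Pool.Agent.Lib.MP_b26fee_pr
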