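import Pool.Agent.Lib.MP_b26fee_pr.Main

/-! Bonferroni bounds and the overlap of a random term with its translate. -/

set_option linter.unusedSectionVars false

namespace Pool.Agent.Lib.MP_b26fee_pr

open Finset Function
open scoped BigOperators

lemma bonf {ι : Type} [DecidableEq ι] (s : Finset ι) (x : ι → ℝ) (h0 : ∀ i, 0 ≤ x i)
    (h1 : ∀ i, x i ≤ 1) : 1 - ∑ i ∈ s, x i ≤ ∏ i ∈ s, (1 - x i) ∧
      ∏ i ∈ s, (1 - x i) ≤ 1 - ∑ i ∈ s, x i + ((∑ i ∈ s, x i) ^ 2 - ∑ i ∈ s, x i ^ 2) := by
  induction s using Finset.induction_on with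
  | empty => simp
  | insert a s ha ih =>
    rw [Finset.sum_insert ha, Finset.sum_insert ha, Finset.prod_insert ha]
    have h2 : 0 ≤ ∑ i ∈ s, x i := Finset.sum_nonneg fun i _ => h0 i
    have h3 : ∑ i ∈ s, x i ^ 2 ≤ (∑ i ∈ s, x i) ^ 2 :=
      Finset.sum_sq_le_sq_sum_of_nonneg fun i _ => h0 i
    have h4 : 0 ≤ 1 - x a := by linarith [h1 a]
    have h5 := mul_le_mul_of_nonneg_left ih.1 h4
    have h6 := mul_le_mul_of_nonneg_left ih.2 h4
    have h7 := mul_nonneg (h0 a) h2
    have h8 := mul_nonneg (h0 a) (sub_nonneg.2 h3)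
    constructor <;> nlinarith

lemma sq_sub_eq {ι : Type} [Fintype ι] [DecidableEq ι] (x : ι → ℝ) :
    (∑ i, x i) ^ 2 - ∑ i, x i ^ 2 = ∑ i, ∑ j, if i = j then 0 else x i * x j := by
  rw [sq, Finset.sum_mul_sum, ← Finset.sum_sub_distrib]
  refine Finset.sum_congr rfl fun i _ => ?_
  have : x i ^ 2 = ∑ j, if i = j then x i * x j else 0 := by simp [sq]
  rw [this, ← Finset.sum_sub_distrib]
  refine Finset.sum_congr rfl fun j _ => ?_
  split_ifs <;> simp

variable {V : Type} [Fintype V] [DecidableEq V]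

lemma W_lip {g g' h : (V → Bool) → ℝ} (a0 : ∀ ω, 0 ≤ g ω) (a1 : ∀ ω, g ω ≤ 1)
    (b0 : ∀ ω, 0 ≤ g' ω) (b1 : ∀ ω, g' ω ≤ 1) (hh : ∀ ω, |g ω - g' ω| ≤ h ω) (U : Finset V) :
    |W g U - W g' U| ≤ 2 * avg h := by
  rw [W, W, ← avg_sub]
  refine (abs_avg_le _).trans ?_
  calc _ ≤ avg fun ω => avg fun η => h ω + h (U.piecewise ω η) := by
        refine avg_mono fun ω => ?_
        rw [← avg_sub]
        refine (abs_avg_le _).trans (avg_mono fun η => ?_)
        have h1 := hh ω
        have h2 := hh (U.piecewise ω η)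
        have : g ω * g (U.piecewise ω η) - g' ω * g' (U.piecewise ω η) =
          g ω * (g (U.piecewise ω η) - g' (U.piecewise ω η)) +
            (g ω - g' ω) * g' (U.piecewise ω η) := by ring
        rw [this]
        refine (abs_add_le _ _).trans ?_
        rw [abs_mul, abs_mul, abs_of_nonneg (a0 _), abs_of_nonneg (b0 _)]
        have h3 := mul_le_of_le_one_left (abs_nonneg (g (U.piecewise ω η) - g' (U.piecewise ω η)))
          (a1 ω)
        have h4 := mul_le_of_le_one_right (abs_nonneg (g ω - g' ω)) (b1 (U.piecewise ω η))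
        linarith
    _ = _ := by
        simp only [avg_add, avg_const]
        rw [avg_avg_piecewise]
        ring

lemma cross_andS (A B U : Finset V) :
    avg (fun ω => avg fun η => andS A ω * andS B (U.piecewise ω η))
      ≤ (1 / 2) ^ A.card * (1 / 2) ^ B.card * 2 ^ (A ∩ B).card := by
  have h1 : ∀ ω : V → Bool, avg (fun η => andS A ω * andS B (U.piecewise ω η))
      = ∏ v, ((if v ∈ A then bt (ω v) else 1) *
        (if v ∈ B then (if v ∈ U then bt (ω v) else 1 / 2) else 1)) := by
    intro ω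
    rw [avg_prod' (fun v b => (if v ∈ A then bt (ω v) else 1) *
      (if v ∈ B then bt (if v ∈ U then ω v else b) else 1))]
    · refine Finset.prod_congr rfl fun v _ => ?_
      by_cases hA : v ∈ A <;> by_cases hS : v ∈ B <;> by_cases hU : v ∈ U <;>
        cases ω v <;> simp [hA, hS, hU, bt]
    · intro η
      rw [andS_eq_prod, andS_eq_prod, ← Finset.prod_mul_distrib]
      refine Finset.prod_congr rfl fun v _ => ?_
      by_cases hU : v ∈ U <;> simp [hU, Finset.piecewise]
  simp only [h1]
  rw [avg_prod' (fun v b => (if v ∈ A then bt b else 1) *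
    (if v ∈ B then (if v ∈ U then bt b else 1 / 2) else 1)) (fun _ => rfl)]
  have h2 : ∀ (S : Finset V) (c : ℝ), c ^ S.card = ∏ v, (if v ∈ S then c else 1) := fun S c => by
    rw [Finset.prod_ite_mem]; simp
  rw [h2, h2, h2, ← Finset.prod_mul_distrib, ← Finset.prod_mul_distrib]
  refine Finset.prod_le_prod (fun v _ => ?_) fun v _ => ?_ <;>
    by_cases hA : v ∈ A <;> by_cases hS : v ∈ B <;> by_cases hU : v ∈ U <;>
      simp [hA, hS, hU, bt] <;> norm_num

variable {G : Type} [Group G] [Fintype G] [DecidableEq G]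

/-- The number of points of `A` that `s` moves into `A`. -/
def ov (s : G) (A : Finset G) : ℕ := (A.filter fun x => s * x ∈ A).card

lemma ov_insert {s : G} (hs : s ≠ 1) (a : G) (A : Finset G) :
    (2 : ℝ) ^ ov s (insert a A) ≤
      2 ^ ov s A * (1 + 3 * if a ∈ A.image (s * ·) ∪ A.image (s⁻¹ * ·) then 1 else 0) := by
  split_ifs with h
  · have h1 : ov s (insert a A) ≤ ov s A + 2 := by
      have h2 : ((insert a A).filter fun x => s * x ∈ insert a A) ⊆
          insert a (insert (s⁻¹ * a) (A.filter fun x => s * x ∈ A)) := fun x hx => by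
        simp only [mem_filter, mem_insert] at hx ⊢
        obtain ⟨rfl | h3, h4 | h4⟩ := hx
        · exact .inl rfl
        · exact .inl rfl
        · exact .inr (.inl (by rw [← h4, inv_mul_cancel_left]))
        · exact .inr (.inr ⟨h3, h4⟩)
      refine (card_le_card h2).trans ((card_insert_le _ _).trans ?_)
      exact Nat.succ_le_succ (card_insert_le _ _)
    calc (2 : ℝ) ^ ov s (insert a A) ≤ 2 ^ (ov s A + 2) := pow_le_pow_right₀ one_le_two h1
      _ = _ := by ring
  · have h1 : ov s (insert a A) ≤ ov s A := by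
      refine card_le_card fun x hx => ?_
      simp only [mem_filter, mem_insert, mem_union, mem_image, not_or, not_exists,
        not_and] at hx h ⊢
      obtain ⟨rfl | h3, h4 | h4⟩ := hx
      · exact absurd (mul_eq_right.1 h4) hs
      · exact absurd (inv_mul_cancel_left s x) (h.2 _ h4)
      · exact absurd h4 (h.1 _ h3)
      · exact ⟨h3, h4⟩
    rw [mul_zero, add_zero, mul_one]
    exact pow_le_pow_right₀ one_le_two h1

lemma expect_ov {s : G} (hs : s ≠ 1) (K : ℕ) : ∀ k ≤ K,
    𝔼 τ : Fin k → G, (2 : ℝ) ^ ov s (univ.image τ) ≤ (1 + 6 * K / Fintype.card G) ^ k := by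
  have hn : (0 : ℝ) < Fintype.card G := by exact_mod_cast Fintype.card_pos
  intro k
  induction k with
  | zero => intro _; simp [ov]
  | succ k ih =>
    intro hk
    rw [expect_cons, Finset.expect_comm, pow_succ]
    refine le_trans ?_ (mul_le_mul_of_nonneg_right (ih (by omega)) (by positivity))
    rw [Finset.expect_mul]
    refine Finset.expect_le_expect fun τ _ => ?_
    have h1 : ∀ a : G, univ.image (Fin.cons a τ : Fin (k + 1) → G) = insert a (univ.image τ) :=
      fun a => by
        ext x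
        simp [Fin.exists_fin_succ, eq_comm]
    simp only [h1]
    refine (Finset.expect_le_expect fun a _ => ov_insert hs a _).trans ?_
    rw [← Finset.mul_expect, Finset.expect_add_distrib, Fintype.expect_const, ← Finset.mul_expect,
      Finset.expect_eq_sum_div_card, Finset.sum_boole, Finset.filter_mem_eq_inter,
      Finset.univ_inter, Finset.card_univ]
    have h2 : (univ.image τ).card ≤ K :=
      card_image_le.trans (by rw [card_univ, Fintype.card_fin]; omega)
    have h3 : ((univ.image τ).image (s * ·) ∪ (univ.image τ).image (s⁻¹ * ·)).card ≤ 2 * K :=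
      (card_union_le _ _).trans (by
        have a1 := card_image_le (s := univ.image τ) (f := (s * ·))
        have a2 := card_image_le (s := univ.image τ) (f := (s⁻¹ * ·))
        omega)
    have h4 : (((univ.image τ).image (s * ·) ∪ (univ.image τ).image (s⁻¹ * ·)).card : ℝ)
        ≤ 2 * K := by exact_mod_cast h3
    refine mul_le_mul_of_nonneg_left ?_ (by positivity)
    have h5 := div_le_div_of_nonneg_right h4 hn.le
    have h6 : (6 : ℝ) * K / Fintype.card G = 3 * (2 * K / Fintype.card G) := by ring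
    linarith

lemma pow_le_exp_six {k : ℕ} (hk : k ^ 4 ≤ Fintype.card G) :
    (1 + 6 * (k : ℝ) / Fintype.card G) ^ k ≤ Real.exp 6 := by
  have hn : (0 : ℝ) < Fintype.card G := by exact_mod_cast Fintype.card_pos
  have h1 : k * k ≤ Fintype.card G := by
    refine le_trans ?_ hk
    rw [show k ^ 4 = (k * k) * (k * k) by ring]
    exact Nat.le_mul_self _
  have h2 : (k : ℝ) * k ≤ Fintype.card G := by exact_mod_cast h1
  have h0 := Real.add_one_le_exp (6 * (k : ℝ) / Fintype.card G)
  calc _ ≤ (Real.exp (6 * (k : ℝ) / Fintype.card G)) ^ k :=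
        pow_le_pow_left₀ (by positivity) (by linarith) k
    _ ≤ _ := by
        rw [← Real.exp_nat_mul, Real.exp_le_exp, ← mul_div_assoc, div_le_iff₀ hn]
        linarith

/-- The translate of a term. -/
def sh {k : ℕ} (g : G) (τ : Fin k → G) : Fin k → G := fun i => g * τ i

variable {k : ℕ}

lemma sh_inj (g : G) (τ : Fin k → G) : Injective (sh g τ) ↔ Injective τ :=
  (mul_right_injective g).of_comp_iff τ

lemma ind_sh (g h : G) (τ : Fin k → G) (ω : G → Bool) :
    ind (Embedding.refl G) (sh h τ) (fun x => ω (g * x)) =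
      ind (Embedding.refl G) (sh (g * h) τ) ω := by
  rw [ind_eq, ind_eq]
  simp only [sh_inj]
  simp [sh, mul_assoc]

lemma expect_sh (g : G) (F : (Fin k → G) → ℝ) : 𝔼 τ, F (sh g τ) = 𝔼 τ, F τ :=
  Fintype.expect_equiv (Equiv.piCongrRight fun _ => Equiv.mulLeft g) _ _ fun _ => rfl

lemma cross_sh (hk : k ^ 4 ≤ Fintype.card G) {g h : G} (hg : g ≠ h) (U : Finset G) :
    𝔼 τ : Fin k → G, avg (fun ω => avg fun η => ind (Embedding.refl G) (sh g τ) ω *
      ind (Embedding.refl G) (sh h τ) (U.piecewise ω η)) ≤ ((1 / 2) ^ k) ^ 2 * Real.exp 6 := by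
  have hs : g⁻¹ * h ≠ 1 := fun e => hg (inv_mul_eq_one.1 e)
  refine le_trans ?_ (mul_le_mul_of_nonneg_left
    ((expect_ov hs k k le_rfl).trans (pow_le_exp_six hk)) (by positivity))
  rw [Finset.mul_expect]
  refine Finset.expect_le_expect fun τ _ => ?_
  by_cases hτ : Injective τ
  · simp only [ind, if_pos ((sh_inj g τ).2 hτ), if_pos ((sh_inj h τ).2 hτ)]
    refine (cross_andS _ _ U).trans ?_
    rw [card_supp _ ((sh_inj g τ).2 hτ), card_supp _ ((sh_inj h τ).2 hτ), ← sq]
    refine mul_le_mul_of_nonneg_left (pow_le_pow_right₀ one_le_two ?_) (by positivity)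
    refine le_trans (card_le_card fun x hx => ?_) (card_image_le (f := (h * ·)))
    simp only [supp, sh, mem_inter, mem_image, mem_univ, true_and, Embedding.refl_apply,
      mem_filter] at hx ⊢
    obtain ⟨⟨a, ha⟩, b, hb⟩ := hx
    exact ⟨τ b, ⟨⟨b, rfl⟩, a, by rw [mul_assoc, hb, ← ha, inv_mul_cancel_left]⟩, hb⟩
  · simp only [ind, if_neg (mt (sh_inj g τ).1 hτ), zero_mul, avg_const]
    positivity

end Pool.Agent.Lib.MP_b26fee_pr
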