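import Pool.Agent.Lib.MP_b26fee_pr.InvA

/-! The translation invariant random DNF and its comparison with the symmetric one. -/

set_option linter.unusedSectionVars false

namespace Pool.Agent.Lib.MP_b26fee_pr

open Finset Function
open scoped BigOperators

variable {G : Type} [Group G] [Fintype G] [DecidableEq G] {k L N : ℕ}

/-- No translate of the term is satisfied. -/
def oT (τ : Fin k → G) (ω : G → Bool) : ℝ := ∏ g, (1 - ind (Embedding.refl G) (sh g τ) ω)

/-- No translate of any term is satisfied. -/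
def gO (S : Fin L → Fin k → G) (ω : G → Bool) : ℝ := ∏ l, oT (S l) ω

lemma oT_nonneg (τ : Fin k → G) (ω : G → Bool) : 0 ≤ oT τ ω :=
  Finset.prod_nonneg fun _ _ => sub_nonneg.2 (ind_le_one _ _ _)

lemma oT_le_one (τ : Fin k → G) (ω : G → Bool) : oT τ ω ≤ 1 :=
  Finset.prod_le_one (fun _ _ => sub_nonneg.2 (ind_le_one _ _ _))
    fun _ _ => sub_le_self _ (ind_nonneg _ _ _)

lemma gO_nonneg (S : Fin L → Fin k → G) (ω : G → Bool) : 0 ≤ gO S ω :=
  Finset.prod_nonneg fun _ _ => oT_nonneg _ _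

lemma gO_le_one (S : Fin L → Fin k → G) (ω : G → Bool) : gO S ω ≤ 1 :=
  Finset.prod_le_one (fun _ _ => oT_nonneg _ _) fun _ _ => oT_le_one _ _

lemma gO_inv (S : Fin L → Fin k → G) (g : G) (ω : G → Bool) :
    gO S (fun x => ω (g * x)) = gO S ω := by
  refine Finset.prod_congr rfl fun l _ => ?_
  simp only [oT, ind_sh]
  exact Fintype.prod_equiv (Equiv.mulLeft g) _ _ fun _ => rfl

lemma exists_gT (hk : 2 ≤ k) (hN : L * Fintype.card G ≤ N) (S : Fin L → Fin k → G) :
    ∃ T : Fin N → Fin k → G, gT (Embedding.refl G) T = gO S := by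
  obtain ⟨φ⟩ : Nonempty (Fin L × G ↪ Fin N) :=
    Function.Embedding.nonempty_of_card_le (by simpa using hN)
  refine ⟨Function.extend φ (fun p => sh p.2 (S p.1)) fun _ _ => 1, funext fun ω => ?_⟩
  rw [gO, gT]
  simp only [oT]
  rw [← Fintype.prod_prod_type' fun l g => 1 - ind (Embedding.refl G) (sh g (S l)) ω]
  refine (Fintype.prod_of_injective φ φ.injective _ _ (fun i hi => ?_) fun p => ?_).symm
  · rw [Function.extend_apply' _ _ _ hi, ind, if_neg, sub_zero]
    intro h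
    have := @h ⟨0, by omega⟩ ⟨1, by omega⟩ rfl
    simp at this
  · rw [φ.injective.extend_apply]

lemma W_gO_update (S : Fin L → Fin k → G) (l : Fin L) (x : Fin k → G) (U : Finset G) :
    |W (gO (update S l x)) U - W (gO S) U| ≤ 4 * Fintype.card G * (1 / 2) ^ k := by
  have h1 : ∀ (τ : Fin k → G) ω, 1 - ∑ g, ind (Embedding.refl G) (sh g τ) ω ≤ oT τ ω :=
    fun τ ω => (bonf _ _ (fun _ => ind_nonneg _ _ _) fun _ => ind_le_one _ _ _).1
  have h2 : ∀ τ : Fin k → G, avg (fun ω => ∑ g, ind (Embedding.refl G) (sh g τ) ω)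
      ≤ Fintype.card G * (1 / 2) ^ k := fun τ => by
    rw [avg_sum]
    refine (Finset.sum_le_card_nsmul _ _ _ fun g _ => avg_ind_le _ _).trans ?_
    rw [card_univ, nsmul_eq_mul]
  refine (W_lip (h := fun ω => ∑ g, ind (Embedding.refl G) (sh g x) ω +
    ∑ g, ind (Embedding.refl G) (sh g (S l)) ω) (gO_nonneg _) (gO_le_one _) (gO_nonneg _)
    (gO_le_one _) (fun ω => ?_) U).trans ?_
  · rw [gO, gO, ← Finset.mul_prod_erase _ _ (Finset.mem_univ l),
      ← Finset.mul_prod_erase univ (fun l => oT (S l) ω) (Finset.mem_univ l)]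
    have h3 : ∏ j' ∈ univ.erase l, oT (update S l x j') ω = ∏ j' ∈ univ.erase l, oT (S j') ω :=
      Finset.prod_congr rfl fun j' hj' => by rw [update_of_ne (Finset.ne_of_mem_erase hj')]
    rw [h3, update_self, ← sub_mul, abs_mul]
    have h4 : |∏ j' ∈ univ.erase l, oT (S j') ω| ≤ 1 := by
      rw [abs_of_nonneg (Finset.prod_nonneg fun _ _ => oT_nonneg _ _)]
      exact Finset.prod_le_one (fun _ _ => oT_nonneg _ _) fun _ _ => oT_le_one _ _
    refine (mul_le_of_le_one_right (abs_nonneg _) h4).trans (abs_le.2 ⟨?_, ?_⟩) <;>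
      linarith [h1 x ω, h1 (S l) ω, oT_le_one x ω, oT_le_one (S l) ω]
  · rw [avg_add]
    linarith [h2 x, h2 (S l)]

/-- The products of different translates. -/
noncomputable def crs (k : ℕ) (ω ω' : G → Bool) : ℝ :=
  ∑ g : G, ∑ h : G, if g = h then 0 else
    𝔼 τ : Fin k → G, ind (Embedding.refl G) (sh g τ) ω * ind (Embedding.refl G) (sh h τ) ω'

lemma crs_comm (ω ω' : G → Bool) : crs k ω ω' = crs k ω' ω := by
  rw [crs, crs, Finset.sum_comm]
  refine Finset.sum_congr rfl fun g _ => Finset.sum_congr rfl fun h _ => ?_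
  simp only [eq_comm (a := h), mul_comm]

lemma avg_crs (hk : k ^ 4 ≤ Fintype.card G) (U : Finset G) :
    avg (fun ω => avg fun η => crs k ω (U.piecewise ω η))
      ≤ (Fintype.card G : ℝ) ^ 2 * (((1 / 2) ^ k) ^ 2 * Real.exp 6) := by
  simp only [crs, avg_sum]
  refine (Finset.sum_le_card_nsmul _ _ _ fun g _ => Finset.sum_le_card_nsmul _ _
    (((1 / 2 : ℝ) ^ k) ^ 2 * Real.exp 6) fun h _ => ?_).trans ?_
  · split_ifs with e
    · simp only [avg_const]
      positivity
    · simp only [avg_expect]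
      exact cross_sh hk e U
  · rw [card_univ, nsmul_eq_mul, nsmul_eq_mul]
    exact le_of_eq (by ring)

lemma expect_cmp (h1 : L * Fintype.card G ≤ N) (h2 : N ≤ L * Fintype.card G + Fintype.card G)
    (ω ω' : G → Bool) :
    |(𝔼 S : Fin L → Fin k → G, gO S ω * gO S ω') -
        𝔼 T : Fin N → Fin k → G, gT (Embedding.refl G) T ω * gT (Embedding.refl G) T ω'|
      ≤ L * (crs k ω ω + crs k ω' ω' + 2 * crs k ω ω' + 2 * (Fintype.card G : ℝ) ^ 2 *
          (pr (Embedding.refl G) k ω ^ 2 + pr (Embedding.refl G) k ω' ^ 2)) +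
        Fintype.card G * (pr (Embedding.refl G) k ω + pr (Embedding.refl G) k ω') := by
  set e := Embedding.refl G with he
  let x : (Fin k → G) → ℝ := fun τ => 1 - (1 - ind e τ ω) * (1 - ind e τ ω')
  have x0 : ∀ τ, 0 ≤ x τ := fun τ => by
    simp only [x]
    nlinarith [ind_le_one e τ ω, ind_le_one e τ ω', ind_nonneg e τ ω, ind_nonneg e τ ω']
  have x1 : ∀ τ, x τ ≤ 1 := fun τ => by
    simp only [x]
    nlinarith [ind_le_one e τ ω, ind_le_one e τ ω', ind_nonneg e τ ω, ind_nonneg e τ ω']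
  have x2 : ∀ τ, x τ ≤ ind e τ ω + ind e τ ω' := fun τ => by
    simp only [x]
    nlinarith [mul_nonneg (ind_nonneg e τ ω) (ind_nonneg e τ ω')]
  have a1 : (𝔼 S : Fin L → Fin k → G, gO S ω * gO S ω')
      = (𝔼 τ : Fin k → G, ∏ g, (1 - x (sh g τ))) ^ L := by
    have h3 := Finset.expect_pow (univ : Finset (Fin k → G)) (fun τ => ∏ g, (1 - x (sh g τ))) L
    rw [Fintype.piFinset_univ] at h3
    rw [h3]
    refine Finset.expect_congr rfl fun S _ => ?_
    simp only [gO, oT, x, sub_sub_cancel, Finset.prod_mul_distrib, he]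
  have a2 : (𝔼 T : Fin N → Fin k → G, gT e T ω * gT e T ω') = (1 - 𝔼 τ, x τ) ^ N := by
    have h3 := Finset.expect_pow (univ : Finset (Fin k → G)) (fun τ => 1 - x τ) N
    rw [Fintype.piFinset_univ, Finset.expect_sub_distrib, Fintype.expect_const] at h3
    rw [h3]
    refine Finset.expect_congr rfl fun T _ => ?_
    simp only [gT, x, sub_sub_cancel, Finset.prod_mul_distrib]
  rw [a1, a2]
  set y := 𝔼 τ, x τ with hy
  set a := 𝔼 τ : Fin k → G, ∏ g, (1 - x (sh g τ)) with ha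
  set m := Fintype.card G with hm
  have y0 : 0 ≤ y := Finset.expect_nonneg fun τ _ => x0 τ
  have y1 : y ≤ 1 := Finset.expect_le Finset.univ_nonempty fun τ _ => x1 τ
  have y2 : y ≤ pr e k ω + pr e k ω' := by
    rw [pr, pr, ← Finset.expect_add_distrib]
    exact Finset.expect_le_expect fun τ _ => x2 τ
  have y3 : 𝔼 τ : Fin k → G, (1 - ∑ g, x (sh g τ)) = 1 - m * y := by
    rw [Finset.expect_sub_distrib, Fintype.expect_const, Finset.expect_sum_comm]
    simp only [expect_sh, ← hy, Finset.sum_const, card_univ, nsmul_eq_mul, hm]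
  have b1 : 1 - m * y ≤ a := by
    rw [← y3]
    exact Finset.expect_le_expect fun τ _ => (bonf _ _ (fun _ => x0 _) fun _ => x1 _).1
  have b2 : a ≤ 1 - m * y + (crs k ω ω + crs k ω' ω' + 2 * crs k ω ω') := by
    refine (Finset.expect_le_expect fun τ _ =>
      (bonf univ (fun g => x (sh g τ)) (fun _ => x0 _) fun _ => x1 _).2).trans ?_
    rw [Finset.expect_add_distrib, y3, two_mul]
    nth_rewrite 2 [crs_comm ω ω']
    simp only [sq_sub_eq, Finset.expect_sum_comm, crs, ← Finset.sum_add_distrib]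
    refine add_le_add_right (Finset.sum_le_sum fun g _ => Finset.sum_le_sum fun h _ => ?_) _
    split_ifs
    · simp
    · simp only [← Finset.expect_add_distrib]
      refine Finset.expect_le_expect fun τ _ => ?_
      refine (mul_le_mul (x2 _) (x2 _) (x0 _) ((x0 _).trans (x2 _))).trans (le_of_eq ?_)
      rw [he]
      ring
  obtain ⟨c1, c2⟩ := bonf (univ : Finset G) (fun _ => y) (fun _ => y0) fun _ => y1
  simp only [Finset.sum_const, Finset.prod_const, card_univ, nsmul_eq_mul, ← hm] at c1 c2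
  have a0 : 0 ≤ a := Finset.expect_nonneg fun τ _ =>
    Finset.prod_nonneg fun _ _ => sub_nonneg.2 (x1 _)
  have a3 : a ≤ 1 := Finset.expect_le Finset.univ_nonempty fun τ _ =>
    Finset.prod_le_one (fun _ _ => sub_nonneg.2 (x1 _)) fun _ _ => sub_le_self _ (x0 _)
  have z0 : 0 ≤ 1 - y := sub_nonneg.2 y1
  have z1 : ∀ n : ℕ, (1 - y) ^ n ≤ 1 := fun n => pow_le_one₀ z0 (by linarith)
  have d1 : |a - (1 - y) ^ m| ≤ crs k ω ω + crs k ω' ω' + 2 * crs k ω ω' + 2 * (m : ℝ) ^ 2 *
      (pr e k ω ^ 2 + pr e k ω' ^ 2) := by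
    have h3 : y ^ 2 ≤ 2 * (pr e k ω ^ 2 + pr e k ω' ^ 2) :=
      (pow_le_pow_left₀ y0 y2 2).trans (by nlinarith [sq_nonneg (pr e k ω - pr e k ω')])
    have h4 := mul_le_mul_of_nonneg_left h3 (sq_nonneg (m : ℝ))
    have h5 : 0 ≤ (m : ℝ) * y ^ 2 := by positivity
    have h6 : 0 ≤ (m : ℝ) ^ 2 * y ^ 2 := by positivity
    rw [mul_pow] at c2
    rw [abs_le]
    constructor <;> linarith
  have d2 : |a ^ L - ((1 - y) ^ m) ^ L| ≤ L * |a - (1 - y) ^ m| := by
    refine (abs_pow_sub_pow_le _ _ _).trans ?_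
    rw [mul_comm (L : ℝ)]
    refine mul_le_of_le_one_right (by positivity) (pow_le_one₀ (by positivity) (max_le ?_ ?_))
    · rwa [abs_of_nonneg a0]
    · rw [abs_of_nonneg (by positivity)]
      exact z1 m
  have d3 : |((1 - y) ^ m) ^ L - (1 - y) ^ N| ≤ m * y := by
    obtain ⟨r, rfl⟩ := Nat.exists_eq_add_of_le h1
    have h3 : (r : ℝ) ≤ m := by exact_mod_cast Nat.le_of_add_le_add_left h2
    have h4 := one_add_mul_le_pow (a := -y) (by linarith) r
    rw [← sub_eq_add_neg] at h4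
    rw [← pow_mul, mul_comm m, pow_add, ← mul_one_sub, abs_of_nonneg
      (mul_nonneg (by positivity) (sub_nonneg.2 (z1 r)))]
    refine (mul_le_of_le_one_left (sub_nonneg.2 (z1 r)) (z1 _)).trans ?_
    nlinarith
  refine (abs_sub_le _ (((1 - y) ^ m) ^ L) _).trans (add_le_add (d2.trans ?_) (d3.trans ?_))
  · exact mul_le_mul_of_nonneg_left d1 (by positivity)
  · exact mul_le_mul_of_nonneg_left y2 (by positivity)

lemma wm_cmp (hk : k ^ 4 ≤ Fintype.card G) (h1 : L * Fintype.card G ≤ N)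
    (h2 : N ≤ L * Fintype.card G + Fintype.card G) (U : Finset G) :
    |(𝔼 S : Fin L → Fin k → G, W (gO S) U) - wm (Embedding.refl G) k N U|
      ≤ Fintype.card G * (1 / 2) ^ k * (8 * Real.exp 6 * (N * (1 / 2) ^ k) + 2) := by
  have hn : (0 : ℝ) < Fintype.card G := by exact_mod_cast Fintype.card_pos
  have e1 : wm (Embedding.refl G) k N U = avg fun ω => avg fun η => 𝔼 T : Fin N → Fin k → G,
      gT (Embedding.refl G) T ω * gT (Embedding.refl G) T (U.piecewise ω η) := by
    simp only [avg_expect]; rfl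
  have e2 : (𝔼 S : Fin L → Fin k → G, W (gO S) U) = avg fun ω => avg fun η =>
      𝔼 S : Fin L → Fin k → G, gO S ω * gO S (U.piecewise ω η) := by
    simp only [avg_expect]; rfl
  rw [e1, e2, ← avg_sub]
  refine (abs_avg_le _).trans ((avg_mono fun ω => ?_).trans ?_ (b := avg fun ω => avg fun η =>
    L * (crs k ω ω + crs k (U.piecewise ω η) (U.piecewise ω η) + 2 * crs k ω (U.piecewise ω η) +
      2 * (Fintype.card G : ℝ) ^ 2 * (pr (Embedding.refl G) k ω ^ 2 +
        pr (Embedding.refl G) k (U.piecewise ω η) ^ 2)) + Fintype.card G *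
      (pr (Embedding.refl G) k ω + pr (Embedding.refl G) k (U.piecewise ω η))))
  · rw [← avg_sub]
    exact (abs_avg_le _).trans (avg_mono fun η => expect_cmp h1 h2 _ _)
  · simp only [avg_const_mul, avg_add, avg_const]
    rw [avg_avg_piecewise U (fun ω => crs k ω ω),
      avg_avg_piecewise U (fun ω => pr (Embedding.refl G) k ω ^ 2),
      avg_avg_piecewise U (pr (Embedding.refl G) k)]
    have p1 := avg_crs hk U
    have p2 := avg_crs hk (univ : Finset G)
    simp only [Finset.piecewise_univ, avg_const] at p2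
    have p3 : avg (fun ω => pr (Embedding.refl G) k ω ^ 2) ≤ ((1 / 2) ^ k) ^ 2 * Real.exp 6 := by
      refine (avg_pr_sq _).trans (mul_le_mul_of_nonneg_left (le_trans ?_ (pow_le_exp_six hk))
        (by positivity))
      gcongr
      linarith [Nat.cast_nonneg (α := ℝ) k]
    have p4 : avg (pr (Embedding.refl G) k) ≤ (1 / 2) ^ k := by
      rw [show pr (Embedding.refl G) k = fun ω => 𝔼 τ : Fin k → G, ind _ τ ω from rfl, avg_expect]
      exact Finset.expect_le Finset.univ_nonempty fun τ _ => avg_ind_le _ τ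
    have p5 : (L : ℝ) * Fintype.card G ≤ N := by exact_mod_cast h1
    have p6 := mul_le_mul_of_nonneg_left p3 (sq_nonneg (Fintype.card G : ℝ))
    have p7 := mul_le_mul_of_nonneg_left p4 hn.le
    have p8 := mul_le_mul_of_nonneg_right p5
      (show 0 ≤ 8 * (Fintype.card G * (((1 / 2 : ℝ) ^ k) ^ 2 * Real.exp 6)) by positivity)
    refine le_trans (add_le_add (mul_le_mul_of_nonneg_left (c := 8 * ((Fintype.card G : ℝ) ^ 2 *
      (((1 / 2) ^ k) ^ 2 * Real.exp 6))) (by linarith) (by positivity))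
      (show _ ≤ 2 * (Fintype.card G * (1 / 2 : ℝ) ^ k) by linarith)) ?_
    linarith

lemma exists_good_inv (j : ℕ) (hk : (2 * j + 2) ^ 4 ≤ Fintype.card G) :
    ∃ T : Fin (4 ^ j) → Fin (2 * j + 2) → G,
      (∀ (g : G) (ω : G → Bool),
        fT (Embedding.refl G) T (fun x => ω (g * x)) = fT (Embedding.refl G) T ω) ∧
      ∀ U : Finset G, |W (gT (Embedding.refl G) T) U - wm (Embedding.refl G) (2 * j + 2) (4 ^ j) U|
        ≤ (5 + 2 * Real.exp 6) * Fintype.card G / 2 ^ j := by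
  have hn : (1 : ℝ) ≤ Fintype.card G := by exact_mod_cast Fintype.card_pos
  set m := Fintype.card G with hm
  have h1 : 4 ^ j / m * m ≤ 4 ^ j := Nat.div_mul_le_self _ _
  have h2 : 4 ^ j ≤ 4 ^ j / m * m + m := (Nat.lt_div_mul_add Fintype.card_pos).le
  obtain ⟨S, hS⟩ := exists_close (X := Fin (2 * j + 2) → G) (ι := Finset G)
    (c := 4 * m * (1 / 2) ^ (2 * j + 2)) (by positivity) (2 ^ j) (4 ^ j / m)
    (fun U S => W (gO S) U) (fun U S i x => W_gO_update S i x U)
  obtain ⟨T, hT⟩ := exists_gT (by omega) h1 S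
  refine ⟨T, fun g ω => ?_, fun U => ?_⟩
  · have h3 := gO_inv S g ω
    rw [← hT, gT_eq, gT_eq] at h3
    revert h3
    cases fT (Embedding.refl G) T fun x => ω (g * x) <;> cases fT (Embedding.refl G) T ω <;> simp
  have h4 := four_pow_mul j
  have h5 : |W (gO S) U - 𝔼 S' : Fin (4 ^ j / m) → Fin (2 * j + 2) → G, W (gO S') U|
      ≤ 3 * m / 2 ^ j := by
    have a1 := hS U
    have a2 : ((4 ^ j / m : ℕ) : ℝ) * (((2 : ℝ) ^ j) ^ 2 * (4 * m * (1 / 2) ^ (2 * j + 2)) ^ 2 / 2)
        ≤ m := by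
      have a3 : ((2 : ℝ) ^ j) ^ 2 = 4 ^ j := by rw [← pow_mul, mul_comm, pow_mul]; norm_num
      have a4 : ((4 ^ j / m : ℕ) : ℝ) * m ≤ 4 ^ j := by exact_mod_cast h1
      rw [a3]
      calc _ = ((4 ^ j / m : ℕ) : ℝ) * m * (8 * m * (4 ^ j * ((1 / 2) ^ (2 * j + 2)) ^ 2)) := by
            ring
        _ ≤ 4 ^ j * (8 * m * (4 ^ j * ((1 / 2) ^ (2 * j + 2)) ^ 2)) := by gcongr
        _ = 8 * m * ((4 : ℝ) ^ j * (1 / 2) ^ (2 * j + 2)) ^ 2 := by ring
        _ ≤ _ := by rw [h4]; linarith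
    rw [Fintype.card_finset] at a1
    have a5 : (2 : ℝ) ≤ Real.exp 1 := by linarith [Real.add_one_le_exp 1]
    have a6 : (2 : ℝ) * ((2 ^ m : ℕ) : ℝ) * Real.exp m ≤ Real.exp (3 * m) := by
      push_cast
      calc (2 : ℝ) * 2 ^ m * Real.exp m ≤ Real.exp m * Real.exp 1 ^ m * Real.exp m := by
            gcongr
            exact a5.trans (Real.exp_le_exp.2 hn)
        _ = _ := by
            rw [← Real.exp_nat_mul, ← Real.exp_add, ← Real.exp_add]; congr 1; ring
    have a7 := Real.exp_le_exp.1 (a1.trans ((mul_le_mul_of_nonneg_left (Real.exp_le_exp.2 a2)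
      (by positivity)).trans a6))
    rw [le_div_iff₀ (by positivity), mul_comm]
    exact a7
  have h6 := wm_cmp hk h1 h2 U
  push_cast at h6
  rw [h4] at h6
  have h7 : (1 / 2 : ℝ) ^ (2 * j + 2) ≤ 1 / 2 ^ j := by
    rw [← one_div_pow]
    exact pow_le_pow_of_le_one (by norm_num) (by norm_num) (by omega)
  have h8 : (m : ℝ) * (1 / 2) ^ (2 * j + 2) * (8 * Real.exp 6 * (1 / 4) + 2)
      ≤ m * (1 / 2 ^ j) * (8 * Real.exp 6 * (1 / 4) + 2) := by gcongr
  rw [hT]
  refine (abs_sub_le _ _ _).trans ((add_le_add h5 (h6.trans h8)).trans (le_of_eq ?_))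
  ring

lemma exists_scale (m : ℕ) (hm : 16 ≤ m) : ∃ j, (2 * j + 2) ^ 4 ≤ m ∧ m ≤ (2 * j + 2) ^ 8 := by
  induction m, hm using Nat.le_induction with
  | base => exact ⟨0, by norm_num, by norm_num⟩
  | succ m _ ih =>
    obtain ⟨j, h1, h2⟩ := ih
    rcases h2.eq_or_lt with h3 | h3
    · refine ⟨j + 1, ?_, ?_⟩
      · have h4 : 2 * (j + 1) + 2 ≤ (2 * j + 2) ^ 2 := by nlinarith
        have h5 := Nat.pow_le_pow_left h4 4
        rw [← pow_mul] at h5
        exact h5.trans (h3.ge.trans (Nat.le_succ m))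
      · exact h3 ▸ Nat.pow_lt_pow_left (by omega) (by norm_num)
    · exact ⟨j, by omega, h3⟩

lemma bern_clue_scale (g : (G → Bool) → ℝ) {δ t : ℝ} (hδ : 0 ≤ δ) (h0 : 0 ≤ t) (h1 : t ≤ 1) :
    bern (t * δ) (clue g) ≤ t * bern δ (clue g) := by
  rw [bern_clue, bern_clue, ← mul_div_assoc]
  refine div_le_div_of_nonneg_right ?_ (var_nonneg g)
  rw [bern_W, bern_W, W_eq, Finset.powerset_empty, Finset.sum_singleton,
    ← Finset.add_sum_erase _ _ (Finset.mem_univ (∅ : Finset G)),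
    ← Finset.add_sum_erase _ _ (Finset.mem_univ (∅ : Finset G))]
  simp only [Finset.card_empty, pow_zero, one_mul, add_sub_cancel_left]
  rw [Finset.mul_sum]
  refine Finset.sum_le_sum fun S hS => ?_
  rw [mul_pow, mul_assoc]
  refine mul_le_mul_of_nonneg_right (pow_le_of_le_one h0 h1 ?_) (by positivity)
  exact Finset.card_ne_zero.2 (Finset.nonempty_iff_ne_empty.2 (Finset.ne_of_mem_erase hS))

open Filter Topology in
theorem invariant_optimal (G : ℕ → Type) [∀ n, Group (G n)] [∀ n, Fintype (G n)]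
    [∀ n, DecidableEq (G n)] (hG : Tendsto (fun n => Fintype.card (G n)) atTop atTop) :
    ∃ f : ∀ n, (G n → Bool) → Bool,
      (∀ n, Monotone (f n)) ∧ (∀ n (g : G n) ω, f n (fun x => ω (g * x)) = f n ω) ∧
      (∀ᶠ n in atTop, 1 / 4 ≤ var (sgn (f n))) ∧
      (∀ ε ∈ Set.Ioo (0 : ℝ) 1, Tendsto (fun n => noiseCov (sgn (f n)) ε) atTop (𝓝 0)) ∧
      ∀ δ ∈ Set.Ioo (0 : ℝ) 1, ∀ η : ℝ, 0 < η → ∀ᶠ n in atTop, 0 < bern δ (clue (sgn (f n))) ∧
        ∀ U : Finset (G n), (U.card : ℝ) ≤ δ * Fintype.card (G n) →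
          clue (sgn (f n)) U ≤
            (U.card / (δ * Fintype.card (G n)) + η) * bern δ (clue (sgn (f n))) := by
  have h0 : ∀ n, ∃ (j : ℕ) (T : Fin (4 ^ j) → Fin (2 * j + 2) → G n),
      (∀ (g : G n) (ω : G n → Bool),
        fT (Embedding.refl _) T (fun x => ω (g * x)) = fT (Embedding.refl _) T ω) ∧
      (16 ≤ Fintype.card (G n) → ((2 * j + 2) ^ 4 ≤ Fintype.card (G n) ∧
        Fintype.card (G n) ≤ (2 * j + 2) ^ 8) ∧ ∀ U, |W (gT (Embedding.refl _) T) U -
          wm (Embedding.refl (G n)) (2 * j + 2) (4 ^ j) U|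
          ≤ (5 + 2 * Real.exp 6) * Fintype.card (G n) / 2 ^ j) := fun n => by
    by_cases h : 16 ≤ Fintype.card (G n)
    · obtain ⟨j, hj⟩ := exists_scale _ h
      obtain ⟨T, h1, h2⟩ := exists_good_inv j hj.1
      exact ⟨j, T, h1, fun _ => ⟨hj, h2⟩⟩
    · refine ⟨0, fun _ _ => 1, fun g ω => ?_, fun h' => absurd h' h⟩
      have h1 : ¬Injective fun _ : Fin (2 * 0 + 2) => (1 : G n) := fun h1 => by
        have := @h1 ⟨0, by omega⟩ ⟨1, by omega⟩ rfl
        simp at this
      simp only [fT, h1, false_and]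
  choose j T hinv hT using h0
  have hev := (hG.eventually_ge_atTop 16).mono hT
  have hj : Tendsto j atTop atTop := tendsto_atTop.2 fun b => by
    filter_upwards [hev, hG.eventually_gt_atTop ((2 * b + 2) ^ 8)] with n h1 h2
    have := lt_of_pow_lt_pow_left₀ 8 (Nat.zero_le _) (h2.trans_le h1.1.2)
    omega
  set s : ℕ → ℝ := fun n => (5 + 2 * Real.exp 6) * Fintype.card (G n) / 2 ^ j n with hs
  have hpos : ∀ n, (1 : ℝ) ≤ Fintype.card (G n) := fun n => by exact_mod_cast Fintype.card_pos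
  have hs0 : ∀ n, 0 ≤ s n := fun n => by positivity
  have hms : Tendsto (fun n => Fintype.card (G n) * s n) atTop (𝓝 0) := by
    have h := ((tendsto_poly 16).comp hj).const_mul (5 + 2 * Real.exp 6)
    rw [mul_zero] at h
    refine squeeze_zero' (.of_forall fun n => by positivity) (hev.mono fun n hn => ?_) h
    have h1 : (Fintype.card (G n) : ℝ) ≤ (2 * (j n : ℝ) + 2) ^ 8 := by exact_mod_cast hn.1.2
    calc Fintype.card (G n) * s n
        = (5 + 2 * Real.exp 6) * ((Fintype.card (G n) : ℝ) ^ 2 / 2 ^ j n) := by rw [hs]; ring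
      _ ≤ (5 + 2 * Real.exp 6) * (((2 * (j n : ℝ) + 2) ^ 8) ^ 2 / 2 ^ j n) := by gcongr
      _ = _ := by rw [← pow_mul]; rfl
  have hs1 : Tendsto s atTop (𝓝 0) :=
    squeeze_zero hs0 (fun n => le_mul_of_one_le_left (hs0 n) (hpos n)) hms
  have herr : Tendsto (fun n => s n + 1 / (2 * (j n : ℝ) + 2) + (1 / 2) ^ (2 * j n + 2)) atTop
      (𝓝 0) := by
    have h := hs1.add ((tendsto_err (fun _ => 0) tendsto_const_nhds).comp hj)
    rw [add_zero] at h
    exact h.congr fun n => by simp only [comp]; ring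
  have hv : ∀ᶠ n in atTop, 1 / 4 ≤ var (sgn (fT (Embedding.refl _) (T n))) := by
    filter_upwards [hev, herr.eventually (ge_mem_nhds (show (0 : ℝ) < 1 / 100 by norm_num))]
      with n h1 h2
    exact var_ge _ _ h1.1.1 h1.2 h2
  refine ⟨fun n => fT (Embedding.refl _) (T n), fun n => fT_mono _ _, hinv, hv, fun ε hε => ?_,
    fun δ hδ η hη => ?_⟩
  · have h2 : Tendsto (fun n => (1 - ε / 2) ^ (2 * j n + 2)) atTop (𝓝 0) :=
      ((tendsto_pow_atTop_nhds_zero_of_lt_one (by linarith [hε.2]) (by linarith [hε.1])).comp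
        tendsto_lin).comp hj
    have h3 := (herr.const_mul 8).add h2
    simp only [mul_zero, add_zero] at h3
    exact squeeze_zero_norm' (hev.mono fun n hn => noise_le _ _ hn.1.1 hn.2 hε.1.le hε.2.le) h3
  · have h5 := hδ.1
    filter_upwards [hev, hv, hms.eventually (ge_mem_nhds (show (0 : ℝ) < η * δ / 128 by positivity))]
      with n h1 h2 h3
    have h4 := bern_clue_ge _ _ h2 hδ.1.le
    have h6 := hpos n
    refine ⟨lt_of_lt_of_le (by positivity) h4, fun U hU => ?_⟩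
    have t0 : (0 : ℝ) ≤ U.card / (δ * Fintype.card (G n)) := by positivity
    have t1 : (U.card : ℝ) / (δ * Fintype.card (G n)) ≤ 1 := (div_le_one (by positivity)).2 hU
    have h7 := clue_le (T n) h1.2 h2 (mul_nonneg t0 h5.le) (mul_le_one₀ t1 h5.le hδ.2.le) U
      (by rw [mul_assoc, div_mul_cancel₀ _ (by positivity)])
    have h10 := bern_clue_scale (sgn (fT (Embedding.refl _) (T n))) h5.le t0 t1
    have h8 : 32 * s n ≤ η * (δ / (4 * Fintype.card (G n))) := by
      rw [← mul_div_assoc η, le_div_iff₀ (by positivity)]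
      linarith
    have h9 := mul_le_mul_of_nonneg_left h4 hη.le
    linarith

end Pool.Agent.Lib.MP_b26fee_pr
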