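import Pool.Agent.Lib.MP_b26fee_pr.Moments

set_option linter.unusedSectionVars false

namespace Pool.Agent.Lib.MP_b26fee_pr

open Finset Function Filter Topology
open scoped BigOperators

variable {α V : Type} [Fintype α] [DecidableEq α] [Fintype V] [DecidableEq V] [Nonempty α]

lemma four_pow_mul (j : ℕ) : (4 : ℝ) ^ j * (1 / 2) ^ (2 * j + 2) = 1 / 4 := by
  rw [pow_add, pow_mul, ← mul_assoc, ← mul_pow]; norm_num

lemma exists_good (e : α ↪ V) (j : ℕ) :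
    ∃ T : Fin (4 ^ j) → Fin (2 * j + 2) → α, ∀ U : Finset V,
      |W (gT e T) U - wm e (2 * j + 2) (4 ^ j) U| ≤ ((Fintype.card V : ℝ) + 2) / 2 ^ j := by
  obtain ⟨T, hT⟩ := exists_close (X := Fin (2 * j + 2) → α) (ι := Finset V)
    (c := 4 * (1 / 2) ^ (2 * j + 2)) (by positivity) (2 ^ j) (4 ^ j)
    (fun U T => W (gT e T) U) (fun U T i x => W_update e T i x U)
  refine ⟨T, fun U => ?_⟩
  have h1 := hT U
  have h2 : ((4 ^ j : ℕ) : ℝ) * (((2 : ℝ) ^ j) ^ 2 * (4 * (1 / 2) ^ (2 * j + 2)) ^ 2 / 2)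
      = 1 / 2 := by
    have h3 : ((2 : ℝ) ^ j) ^ 2 = 4 ^ j := by rw [← pow_mul, mul_comm, pow_mul]; norm_num
    have h4 := four_pow_mul j
    push_cast
    rw [h3]
    calc _ = 8 * ((4 : ℝ) ^ j * (1 / 2) ^ (2 * j + 2)) ^ 2 := by ring
      _ = _ := by rw [h4]; norm_num
  rw [h2, Fintype.card_finset] at h1
  have h5 : (2 : ℝ) ≤ Real.exp 1 := by linarith [Real.add_one_le_exp 1]
  have h6 : (2 : ℝ) * ((2 ^ Fintype.card V : ℕ) : ℝ) * Real.exp (1 / 2)
      ≤ Real.exp ((Fintype.card V : ℝ) + 2) := by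
    push_cast
    calc (2 : ℝ) * 2 ^ Fintype.card V * Real.exp (1 / 2)
        ≤ Real.exp 1 * Real.exp 1 ^ Fintype.card V * Real.exp 1 := by
          gcongr
          norm_num
      _ = _ := by
          rw [← Real.exp_nat_mul, ← Real.exp_add, ← Real.exp_add]; congr 1; ring
  have h7 := Real.exp_le_exp.1 (h1.trans h6)
  rw [le_div_iff₀ (by positivity), mul_comm]
  exact h7

lemma c0_bounds (j : ℕ) :
    1 / 2 ≤ (1 - 2 * (1 / 2 : ℝ) ^ (2 * j + 2)) ^ (4 ^ j) ∧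
      (1 - 2 * (1 / 2 : ℝ) ^ (2 * j + 2)) ^ (4 ^ j) ≤ 2 / 3 := by
  have h4 := four_pow_mul j
  have hκ : (1 / 2 : ℝ) ^ (2 * j + 2) ≤ 1 / 2 := by
    calc (1 / 2 : ℝ) ^ (2 * j + 2) ≤ (1 / 2) ^ 1 :=
          pow_le_pow_of_le_one (by norm_num) (by norm_num) (by omega)
      _ = _ := by norm_num
  have hκ0 : (0 : ℝ) < (1 / 2) ^ (2 * j + 2) := by positivity
  set κ : ℝ := (1 / 2) ^ (2 * j + 2)
  constructor
  · have := one_add_mul_le_pow (a := -(2 * κ)) (by linarith) (4 ^ j)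
    push_cast at this
    rw [← sub_eq_add_neg] at this
    linarith
  · have h1 : (1 - 2 * κ) ^ (4 ^ j) ≤ Real.exp (-(1 / 2)) := by
      have h0 := Real.add_one_le_exp (-(2 * κ))
      calc (1 - 2 * κ) ^ (4 ^ j) ≤ (Real.exp (-(2 * κ))) ^ (4 ^ j) :=
            pow_le_pow_left₀ (by linarith) (by linarith) _
        _ = _ := by
            rw [← Real.exp_nat_mul]; congr 1; push_cast; linarith
    have h2 : Real.exp (-(1 / 2)) ≤ 2 / 3 := by
      rw [Real.exp_neg, inv_le_comm₀ (Real.exp_pos _) (by norm_num)]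
      linarith [Real.add_one_le_exp (1 / 2)]
    linarith

variable (e : α ↪ V) {j : ℕ} (T : Fin (4 ^ j) → Fin (2 * j + 2) → α) {s : ℝ}

lemma W_close (hk : (2 * j + 2) ^ 4 ≤ Fintype.card α)
    (hT : ∀ U, |W (gT e T) U - wm e (2 * j + 2) (4 ^ j) U| ≤ s) (U : Finset V) :
    |W (gT e T) U - (1 - 2 * (1 / 2 : ℝ) ^ (2 * j + 2)) ^ (4 ^ j)|
      ≤ s + 1 / (2 * j + 2) + 4 ^ j * Q e (2 * j + 2) U := by
  have h1 := wm_close (N := 4 ^ j) e (by omega) hk U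
  have h2 := hT U
  have h4 := four_pow_mul j
  push_cast at h1
  have h3 : (4 : ℝ) ^ j * ((1 / 2) ^ (2 * j + 2) * (4 / (2 * j + 2)) + Q e (2 * j + 2) U)
      = 1 / (2 * j + 2) + 4 ^ j * Q e (2 * j + 2) U := by
    rw [mul_add, ← mul_assoc, h4]; congr 1; field_simp
  rw [h3] at h1
  have := abs_sub_le (W (gT e T) U) (wm e (2 * j + 2) (4 ^ j) U)
    ((1 - 2 * (1 / 2 : ℝ) ^ (2 * j + 2)) ^ (4 ^ j))
  linarith

lemma Q_empty_le' : 4 ^ j * Q e (2 * j + 2) ∅ ≤ (1 / 2) ^ (2 * j + 2) := by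
  have h1 := Q_empty_le (k := 2 * j + 2) e
  have h4 := four_pow_mul j
  have hκ0 : (0 : ℝ) < (1 / 2) ^ (2 * j + 2) := by positivity
  calc 4 ^ j * Q e (2 * j + 2) ∅ ≤ 4 ^ j * ((1 / 2) ^ (2 * j + 2)) ^ 2 :=
        mul_le_mul_of_nonneg_left h1 (by positivity)
    _ = (4 ^ j * (1 / 2) ^ (2 * j + 2)) * (1 / 2) ^ (2 * j + 2) := by ring
    _ ≤ _ := by rw [h4]; linarith

lemma W_sgn_univ (f : (V → Bool) → Bool) : W (sgn f) univ = 1 := by
  rw [W_univ, ← avg_const (V := V) 1]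
  congr 1; funext ω; rw [sgn]; split_ifs <;> norm_num

lemma var_ge (hk : (2 * j + 2) ^ 4 ≤ Fintype.card α)
    (hT : ∀ U, |W (gT e T) U - wm e (2 * j + 2) (4 ^ j) U| ≤ s)
    (hs : s + 1 / (2 * j + 2) + (1 / 2) ^ (2 * j + 2) ≤ 1 / 100) :
    1 / 4 ≤ var (sgn (fT e T)) := by
  have h1 := W_close e T hk hT ∅
  have h2 := Q_empty_le' (j := j) e
  obtain ⟨h3, h4⟩ := c0_bounds j
  rw [var_eq_W, W_sgn_univ, W_affine _ _ (sgn_fT e T), W_empty] at *
  have h5 : 0 ≤ avg (gT e T) := avg_nonneg (gT_nonneg e T)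
  obtain ⟨h6, h7⟩ := abs_le.1 h1
  have h8 : 7 / 10 ≤ avg (gT e T) := by nlinarith
  have h9 : avg (gT e T) ≤ 83 / 100 := by nlinarith
  nlinarith

lemma noiseCov_eq (g : (V → Bool) → ℝ) (ε : ℝ) :
    noiseCov g ε = bern ε (fun R => W g Rᶜ) - W g ∅ := by
  rw [noiseCov, W_empty]
  simp only [W, Finset.piecewise_compl]

lemma noise_le (hk : (2 * j + 2) ^ 4 ≤ Fintype.card α)
    (hT : ∀ U, |W (gT e T) U - wm e (2 * j + 2) (4 ^ j) U| ≤ s) {ε : ℝ} (h0 : 0 ≤ ε)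
    (h1 : ε ≤ 1) :
    |noiseCov (sgn (fT e T)) ε|
      ≤ 8 * (s + 1 / (2 * j + 2) + (1 / 2) ^ (2 * j + 2)) + (1 - ε / 2) ^ (2 * j + 2) := by
  rw [noiseCov_eq]
  have h2 : W (sgn (fT e T)) ∅ ≤ bern ε (fun R => W (sgn (fT e T)) Rᶜ) := by
    rw [← bern_const (V := V) ε (W (sgn (fT e T)) ∅)]
    exact bern_mono h0 h1 fun U => W_mono _ (Finset.empty_subset _)
  rw [abs_of_nonneg (by linarith)]
  simp only [W_affine _ _ (sgn_fT e T), bern_add, bern_const, bern_const_mul]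
  have h3 : bern ε (fun R => W (gT e T) Rᶜ) ≤ (1 - 2 * (1 / 2 : ℝ) ^ (2 * j + 2)) ^ (4 ^ j)
      + (s + 1 / (2 * j + 2)) + 4 ^ j * bern ε (fun R => Q e (2 * j + 2) Rᶜ) := by
    rw [← bern_const (V := V) ε ((1 - 2 * (1 / 2 : ℝ) ^ (2 * j + 2)) ^ (4 ^ j)
      + (s + 1 / (2 * j + 2))), ← bern_const_mul, ← bern_add]
    refine bern_mono h0 h1 fun U => ?_
    have := (abs_le.1 (W_close e T hk hT Uᶜ)).2
    linarith
  have h4 : 4 ^ j * bern ε (fun R => Q e (2 * j + 2) Rᶜ) ≤ 1 / 4 * (1 - ε / 2) ^ (2 * j + 2) := by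
    calc _ ≤ 4 ^ j * (1 / 2 - ε / 4) ^ (2 * j + 2) :=
          mul_le_mul_of_nonneg_left (bern_Q_le e h1) (by positivity)
      _ = _ := by
          rw [← four_pow_mul j, mul_assoc, ← mul_pow]; congr 2; ring
  have h5 := (abs_le.1 (W_close e T hk hT ∅)).1
  have h6 := Q_empty_le' (j := j) e
  have hκ0 : (0 : ℝ) < (1 / 2) ^ (2 * j + 2) := by positivity
  linarith

lemma bern_clue (g : (V → Bool) → ℝ) (δ : ℝ) :
    bern δ (clue g) = (bern δ (W g) - W g ∅) / var g := by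
  have : clue g = fun U => (W g U - W g ∅) / var g := by
    funext U; rw [clue, var_condAvg]
  rw [this, bern_div, bern_sub, bern_const]

lemma bern_clue_ge (hv : 1 / 4 ≤ var (sgn (fT e T))) {δ : ℝ} (hδ : 0 ≤ δ) :
    δ / (4 * Fintype.card α) ≤ bern δ (clue (sgn (fT e T))) := by
  have hn : (0 : ℝ) < Fintype.card α := by exact_mod_cast Fintype.card_pos
  have h1 := bern_lower (fT e T) (fT_mono e T) _ (W_range e T) hδ
  rw [Finset.card_map, Finset.card_univ] at h1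
  rw [bern_clue, div_le_div_iff₀ (by positivity) (by linarith)]
  have h2 : δ * var (sgn (fT e T)) * (1 / 4) ≤ δ * var (sgn (fT e T)) * var (sgn (fT e T)) :=
    mul_le_mul_of_nonneg_left hv (mul_nonneg hδ (by linarith))
  nlinarith

lemma cp_bounds (hv : 1 / 4 ≤ var (sgn (fT e T))) {δ : ℝ} (h0 : 0 < δ) (h1 : δ ≤ 1) :
    0 < cp (sgn (fT e T)) δ ∧
      cp (sgn (fT e T)) δ ≤ (Fintype.card α : ℝ) / Fintype.card V := by
  have hV : (0 : ℝ) < Fintype.card V := by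
    have : Nonempty V := ⟨e (Classical.arbitrary α)⟩
    exact_mod_cast Fintype.card_pos
  have hmem : (Fintype.card α : ℝ) / Fintype.card V ∈ {u : ℝ | ∃ U : Finset V,
      (U.card : ℝ) / Fintype.card V ≤ u ∧ δ ≤ clue (sgn (fT e T)) U} := by
    refine ⟨univ.map e, by simp, ?_⟩
    rw [clue, var_condAvg, W_range, ← var_eq_W, div_self (by linarith)]
    exact h1
  have hlow : ∀ u ∈ {u : ℝ | ∃ U : Finset V,
      (U.card : ℝ) / Fintype.card V ≤ u ∧ δ ≤ clue (sgn (fT e T)) U},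
      1 / (Fintype.card V : ℝ) ≤ u := by
    rintro u ⟨U, hU, hc⟩
    refine le_trans (div_le_div_of_nonneg_right ?_ hV.le) hU
    have : U ≠ ∅ := by
      rintro rfl
      rw [clue, var_condAvg, sub_self, zero_div] at hc
      linarith
    exact_mod_cast Finset.card_pos.2 (Finset.nonempty_iff_ne_empty.2 this)
  exact ⟨lt_of_lt_of_le (by positivity) (le_csInf ⟨_, hmem⟩ hlow), csInf_le ⟨_, hlow⟩ hmem⟩

lemma clue_le [Nonempty V] (T : Fin (4 ^ j) → Fin (2 * j + 2) → V)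
    (hT : ∀ U, |W (gT (Embedding.refl V) T) U - wm (Embedding.refl V) (2 * j + 2) (4 ^ j) U| ≤ s)
    (hv : 1 / 4 ≤ var (sgn (fT (Embedding.refl V) T))) {δ : ℝ} (h0 : 0 ≤ δ) (h1 : δ ≤ 1)
    (U : Finset V) (hU : (U.card : ℝ) ≤ δ * Fintype.card V) :
    clue (sgn (fT (Embedding.refl V) T)) U
      ≤ bern δ (clue (sgn (fT (Embedding.refl V) T))) + 32 * s := by
  have hs : 0 ≤ s := (abs_nonneg _).trans (hT ∅)
  have h2 := wm_le_bern (k := 2 * j + 2) (N := 4 ^ j) h0 h1 U hU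
  have h3 : bern δ (wm (Embedding.refl V) (2 * j + 2) (4 ^ j))
      ≤ bern δ (W (gT (Embedding.refl V) T)) + s := by
    rw [← bern_const (V := V) δ s, ← bern_add]
    refine bern_mono h0 h1 fun U => ?_
    have := (abs_le.1 (hT U)).1
    linarith
  have h4 := (abs_le.1 (hT U)).2
  have h5 : W (sgn (fT (Embedding.refl V) T)) U
      ≤ bern δ (W (sgn (fT (Embedding.refl V) T))) + 8 * s := by
    have : W (sgn (fT (Embedding.refl V) T)) = fun U =>
        1 - 4 * avg (gT (Embedding.refl V) T) + 4 * W (gT (Embedding.refl V) T) U := by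
      funext U; exact W_affine _ _ (sgn_fT _ T) U
    rw [this]
    simp only [bern_add, bern_const, bern_const_mul]
    linarith
  rw [bern_clue, clue, var_condAvg, div_add' _ _ _ (by linarith)]
  refine div_le_div_of_nonneg_right ?_ (by linarith)
  nlinarith

lemma tendsto_poly (d : ℕ) :
    Tendsto (fun j : ℕ => (2 * (j : ℝ) + 2) ^ d / 2 ^ j) atTop (𝓝 0) := by
  have h := ((tendsto_pow_const_div_const_pow_of_one_lt d (r := 2) (by norm_num)).comp
    (tendsto_add_atTop_nat 1)).const_mul (2 ^ (d + 1))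
  rw [mul_zero] at h
  refine h.congr fun j => ?_
  simp only [comp]
  push_cast
  rw [show (2 * (j : ℝ) + 2) = 2 * (j + 1) by ring, mul_pow]
  field_simp
  ring

lemma tendsto_lin : Tendsto (fun j : ℕ => 2 * j + 2) atTop atTop :=
  tendsto_atTop_mono (fun j => by simp only [id]; omega) tendsto_id

lemma tendsto_err (s : ℕ → ℝ) (hs : Tendsto s atTop (𝓝 0)) :
    Tendsto (fun j : ℕ => s j + 1 / (2 * (j : ℝ) + 2) + (1 / 2) ^ (2 * j + 2)) atTop (𝓝 0) := by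
  have h1 : Tendsto (fun j : ℕ => 1 / (2 * (j : ℝ) + 2)) atTop (𝓝 0) := by
    have := (tendsto_one_div_atTop_nhds_zero_nat (𝕜 := ℝ)).comp tendsto_lin
    refine this.congr fun j => ?_
    simp
  have h2 : Tendsto (fun j : ℕ => (1 / 2 : ℝ) ^ (2 * j + 2)) atTop (𝓝 0) :=
    (tendsto_pow_atTop_nhds_zero_of_lt_one (by norm_num) (by norm_num)).comp tendsto_lin
  simpa using (hs.add h1).add h2

lemma tendsto_size (M : ℕ → ℕ) (hM : ∀ j, M j ≤ (2 * j + 2) ^ 12) :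
    Tendsto (fun j : ℕ => (2 * (j : ℝ) + 2) ^ 4 * (((M j : ℝ) + 2) / 2 ^ j)) atTop (𝓝 0) := by
  have h := (tendsto_poly 16).const_mul 3
  rw [mul_zero] at h
  refine squeeze_zero (fun j => by positivity) (fun j => ?_) h
  have h1 : (M j : ℝ) ≤ (2 * (j : ℝ) + 2) ^ 12 := by exact_mod_cast hM j
  have h2 : (1 : ℝ) ≤ (2 * (j : ℝ) + 2) ^ 12 :=
    one_le_pow₀ (by have : (0 : ℝ) ≤ j := by positivity
                    linarith)
  rw [← mul_div_assoc, ← mul_div_assoc]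
  refine div_le_div_of_nonneg_right ?_ (by positivity)
  calc (2 * (j : ℝ) + 2) ^ 4 * ((M j : ℝ) + 2)
      ≤ (2 * (j : ℝ) + 2) ^ 4 * (3 * (2 * (j : ℝ) + 2) ^ 12) :=
        mul_le_mul_of_nonneg_left (by linarith) (by positivity)
    _ = _ := by ring

lemma tendsto_size' (M : ℕ → ℕ) (hM : ∀ j, M j ≤ (2 * j + 2) ^ 12) :
    Tendsto (fun j : ℕ => ((M j : ℝ) + 2) / 2 ^ j) atTop (𝓝 0) := by
  refine squeeze_zero (fun j => by positivity) (fun j => ?_) (tendsto_size M hM)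
  have h2 : (1 : ℝ) ≤ (2 * (j : ℝ) + 2) ^ 4 :=
    one_le_pow₀ (by have : (0 : ℝ) ≤ j := by positivity
                    linarith)
  exact le_mul_of_one_le_left (by positivity) h2

lemma exists_seq (M : ℕ → ℕ) (hM : ∀ j, M j ≤ (2 * j + 2) ^ 12)
    (e : ∀ j, Fin ((2 * j + 2) ^ 4) ↪ Fin (M j)) :
    ∃ (T : ∀ j, Fin (4 ^ j) → Fin (2 * j + 2) → Fin ((2 * j + 2) ^ 4)) (j0 : ℕ),
      (∀ j U, |W (gT (e j) (T j)) U - wm (e j) (2 * j + 2) (4 ^ j) U|
        ≤ ((M j : ℝ) + 2) / 2 ^ j) ∧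
      (∀ j, 1 / 4 ≤ var (sgn (fT (e (j + j0)) (T (j + j0))))) ∧
      ∀ ε ∈ Set.Ioo (0 : ℝ) 1,
        Tendsto (fun j => noiseCov (sgn (fT (e (j + j0)) (T (j + j0)))) ε) atTop (𝓝 0) := by
  choose T hT using fun j => exists_good (e j) j
  simp only [Fintype.card_fin] at hT
  have herr := tendsto_err _ (tendsto_size' M hM)
  obtain ⟨j0, hj0⟩ := eventually_atTop.1
    (herr.eventually (ge_mem_nhds (show (0 : ℝ) < 1 / 100 by norm_num)))
  refine ⟨T, j0, hT, fun j => var_ge _ _ (by simp) (hT _) (hj0 _ (by omega)), fun ε hε => ?_⟩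
  refine Tendsto.comp (g := fun j => noiseCov (sgn (fT (e j) (T j))) ε) ?_
    (tendsto_add_atTop_nat j0)
  have h2 : Tendsto (fun j : ℕ => (1 - ε / 2) ^ (2 * j + 2)) atTop (𝓝 0) :=
    (tendsto_pow_atTop_nhds_zero_of_lt_one (by linarith [hε.2]) (by linarith [hε.1])).comp
      tendsto_lin
  have h3 := (herr.const_mul 8).add h2
  simp only [mul_zero, add_zero] at h3
  refine squeeze_zero_norm (fun j => ?_) h3
  exact noise_le _ _ (by simp) (hT j) hε.1.le hε.2.le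

end Pool.Agent.Lib.MP_b26fee_pr
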