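import Pool.Agent.Lib.MP_b26fee_pr.Dnf

set_option linter.unusedSectionVars false

namespace Pool.Agent.Lib.MP_b26fee_pr

open Finset Function
open scoped BigOperators

variable {α V : Type} [Fintype α] [DecidableEq α] [Fintype V] [DecidableEq V] [Nonempty α]

noncomputable def pr (e : α ↪ V) (k : ℕ) (ω : V → Bool) : ℝ := 𝔼 τ : Fin k → α, ind e τ ω

variable (e : α ↪ V) {k N : ℕ}

lemma prob_inj (hk : k ≤ Fintype.card α) :
    1 - (k : ℝ) ^ 2 / Fintype.card α ≤ 𝔼 τ : Fin k → α, (if Injective τ then (1 : ℝ) else 0) := by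
  have hn : (0 : ℝ) < Fintype.card α := by exact_mod_cast Fintype.card_pos
  rw [Finset.expect_eq_sum_div_card, Finset.sum_boole]
  have h1 : (univ.filter fun τ : Fin k → α => Injective τ).card
      = (Fintype.card α).descFactorial k := by
    rw [← Fintype.card_subtype, Fintype.card_congr (Equiv.subtypeInjectiveEquivEmbedding _ _),
      Fintype.card_embedding_eq, Fintype.card_fin]
  rw [h1, Finset.card_univ, Fintype.card_fun, Fintype.card_fin]
  set n := Fintype.card α
  have h2 : ((n - k : ℕ) : ℝ) ^ k ≤ n.descFactorial k := by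
    have := (Nat.pow_le_pow_left (show n - k ≤ n + 1 - k by omega) k).trans
      (Nat.pow_sub_le_descFactorial n k)
    exact_mod_cast this
  rw [Nat.cast_sub hk] at h2
  have hkn : (k : ℝ) ≤ n := by exact_mod_cast hk
  have h3 : (k : ℝ) / n ≤ 1 := (div_le_one hn).2 hkn
  have h4 := one_add_mul_le_pow (a := -((k : ℝ) / n)) (by linarith) k
  push_cast
  rw [le_div_iff₀ (by positivity)]
  calc (1 - (k : ℝ) ^ 2 / n) * (n : ℝ) ^ k ≤ (1 + -((k : ℝ) / n)) ^ k * (n : ℝ) ^ k := by
        refine mul_le_mul_of_nonneg_right (le_trans (le_of_eq ?_) h4) (by positivity)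
        ring
    _ = ((n : ℝ) - k) ^ k := by
        rw [← mul_pow]; congr 1; field_simp; ring
    _ ≤ _ := h2

lemma avg_pr (hk : k ≤ Fintype.card α) :
    (1 - (k : ℝ) ^ 2 / Fintype.card α) * (1 / 2) ^ k ≤ avg (pr e k) := by
  have : avg (pr e k) = (𝔼 τ : Fin k → α, (if Injective τ then (1 : ℝ) else 0)) * (1 / 2) ^ k := by
    rw [show pr e k = fun ω => 𝔼 τ : Fin k → α, ind e τ ω from rfl, avg_expect, Finset.expect_mul]
    refine Finset.expect_congr rfl fun τ _ => ?_
    rw [avg_ind]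
    split_ifs <;> simp
  rw [this]
  exact mul_le_mul_of_nonneg_right (prob_inj hk) (by positivity)

lemma avg_andS_mul (S S' : Finset V) :
    avg (fun ω => andS S ω * andS S' ω)
      = (1 / 2) ^ S.card * ∏ v ∈ S', (if v ∈ S then (1 : ℝ) else 1 / 2) := by
  rw [avg_prod' (fun v b => (if v ∈ S then bt b else 1) * (if v ∈ S' then bt b else 1))
    (by intro η; rw [andS_eq_prod, andS_eq_prod, ← Finset.prod_mul_distrib])]
  have h1 : ((1 : ℝ) / 2) ^ S.card = ∏ v, (if v ∈ S then (1 / 2 : ℝ) else 1) := by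
    rw [Finset.prod_ite_mem]; simp
  have h2 : ∏ v ∈ S', (if v ∈ S then (1 : ℝ) else 1 / 2)
      = ∏ v, (if v ∈ S' then (if v ∈ S then (1 : ℝ) else 1 / 2) else 1) := by
    rw [Finset.prod_ite_mem]; simp
  rw [h1, h2, ← Finset.prod_mul_distrib]
  refine Finset.prod_congr rfl fun v _ => ?_
  by_cases hS : v ∈ S <;> by_cases hU : v ∈ S' <;> simp [hS, hU, bt]

lemma avg_ind_mul (τ τ' : Fin k → α) :
    avg (fun ω => ind e τ ω * ind e τ' ω)
      ≤ (1 / 2) ^ k * ∏ i, (if τ' i ∈ univ.image τ then (1 : ℝ) else 1 / 2) := by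
  have hpos : 0 ≤ (1 / 2 : ℝ) ^ k * ∏ i, (if τ' i ∈ univ.image τ then (1 : ℝ) else 1 / 2) :=
    mul_nonneg (by positivity) (Finset.prod_nonneg fun i _ => by split_ifs <;> norm_num)
  by_cases h : Injective τ
  · by_cases h' : Injective τ'
    · simp only [ind, if_pos h, if_pos h']
      rw [avg_andS_mul, card_supp e h]
      refine le_of_eq ?_
      congr 1
      rw [supp, Finset.prod_image fun a _ b _ hab => h' (e.injective hab)]
      refine Finset.prod_congr rfl fun i _ => ?_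
      simp [supp]
    · simp only [ind, if_neg h', mul_zero, avg_const]; exact hpos
  · simp only [ind, if_neg h, zero_mul, avg_const]; exact hpos

lemma avg_pr_sq :
    avg (fun ω => pr e k ω ^ 2) ≤ ((1 / 2) ^ k) ^ 2 * (1 + (k : ℝ) / Fintype.card α) ^ k := by
  have hn : (0 : ℝ) < Fintype.card α := by exact_mod_cast Fintype.card_pos
  have h1 : (fun ω => pr e k ω ^ 2)
      = fun ω => 𝔼 τ : Fin k → α, 𝔼 τ' : Fin k → α, ind e τ ω * ind e τ' ω := by
    funext ω; rw [sq, pr, Fintype.expect_mul_expect]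
  rw [h1, avg_expect]
  refine Finset.expect_le Finset.univ_nonempty fun τ _ => ?_
  rw [avg_expect]
  refine (Finset.expect_le_expect fun τ' _ => avg_ind_mul e τ τ').trans ?_
  rw [← Finset.mul_expect]
  have h2 := Finset.expect_pow (univ : Finset α)
    (fun a => if a ∈ univ.image τ then (1 : ℝ) else 1 / 2) k
  rw [Fintype.piFinset_univ] at h2
  rw [← h2]
  have h3 : 𝔼 a : α, (if a ∈ univ.image τ then (1 : ℝ) else 1 / 2)
      ≤ 1 / 2 * (1 + (k : ℝ) / Fintype.card α) := by
    have : (fun a : α => if a ∈ univ.image τ then (1 : ℝ) else 1 / 2)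
        = fun a => 1 / 2 + 1 / 2 * (if a ∈ univ.image τ then (1 : ℝ) else 0) := by
      funext a; split_ifs <;> norm_num
    rw [this, Finset.expect_add_distrib, Fintype.expect_const, ← Finset.mul_expect,
      Finset.expect_eq_sum_div_card, Finset.sum_boole, Finset.filter_mem_eq_inter,
      Finset.univ_inter, Finset.card_univ]
    have h4 : ((univ.image τ).card : ℝ) ≤ k := by
      have := Finset.card_image_le (s := (univ : Finset (Fin k))) (f := τ)
      simp only [Finset.card_univ, Fintype.card_fin] at this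
      exact_mod_cast this
    have := div_le_div_of_nonneg_right h4 hn.le
    linarith
  have h5 : 0 ≤ 𝔼 a : α, (if a ∈ univ.image τ then (1 : ℝ) else 1 / 2) :=
    Finset.expect_nonneg fun a _ => by split_ifs <;> norm_num
  calc _ ≤ (1 / 2 : ℝ) ^ k * (1 / 2 * (1 + (k : ℝ) / Fintype.card α)) ^ k :=
        mul_le_mul_of_nonneg_left (pow_le_pow_left₀ h5 h3 k) (by positivity)
    _ = _ := by rw [mul_pow]; ring

lemma avg_abs_pr (hk1 : 1 ≤ k) (hk : k ^ 4 ≤ Fintype.card α) :
    avg (fun ω => |pr e k ω - (1 / 2) ^ k|) ≤ (1 / 2) ^ k * (2 / k) := by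
  have hn : (0 : ℝ) < Fintype.card α := by exact_mod_cast Fintype.card_pos
  have hk0 : (1 : ℝ) ≤ k := by exact_mod_cast hk1
  have hk4 : (k : ℝ) ^ 4 ≤ Fintype.card α := by exact_mod_cast hk
  have hkle : k ≤ Fintype.card α := le_trans (Nat.le_self_pow (by norm_num) k) hk
  set κ : ℝ := (1 / 2) ^ k with hκ
  have hκ0 : 0 < κ := by positivity
  set x : ℝ := (k : ℝ) ^ 2 / Fintype.card α with hx
  have hx0 : 0 ≤ x := by positivity
  have hx1 : x ≤ 1 / (k : ℝ) ^ 2 := by
    rw [hx, div_le_div_iff₀ hn (by positivity)]; nlinarith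
  have hx2 : x ≤ 1 := hx1.trans (by rw [div_le_one (by positivity)]; nlinarith)
  have h1 : (1 + (k : ℝ) / Fintype.card α) ^ k ≤ 1 + 2 * x := by
    have h2 : (1 + (k : ℝ) / Fintype.card α) ^ k ≤ Real.exp x := by
      have h0 := Real.add_one_le_exp ((k : ℝ) / Fintype.card α)
      calc (1 + (k : ℝ) / Fintype.card α) ^ k ≤ (Real.exp ((k : ℝ) / Fintype.card α)) ^ k :=
            pow_le_pow_left₀ (by positivity) (by linarith) k
        _ = _ := by rw [← Real.exp_nat_mul]; congr 1; rw [hx]; ring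
    have h3 := Real.abs_exp_sub_one_le (x := x) (by rwa [abs_of_nonneg hx0])
    rw [abs_of_nonneg hx0] at h3
    linarith [le_abs_self (Real.exp x - 1)]
  have h4 : avg (fun ω => |pr e k ω - κ| ^ 2) ≤ (κ * (2 / k)) ^ 2 := by
    have : (fun ω => |pr e k ω - κ| ^ 2)
        = fun ω => (pr e k ω ^ 2 - (2 * κ) * pr e k ω) + κ ^ 2 := by
      funext ω; rw [sq_abs]; ring
    rw [this, avg_add, avg_sub, avg_const_mul, avg_const]
    have h5 := avg_pr_sq (k := k) e
    have h6 := avg_pr e hkle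
    rw [← hκ] at h5 h6
    rw [← hx] at h6
    have h7 : κ ^ 2 * (1 + (k : ℝ) / Fintype.card α) ^ k ≤ κ ^ 2 * (1 + 2 * x) :=
      mul_le_mul_of_nonneg_left h1 (by positivity)
    have h8 : (κ * (2 / k)) ^ 2 = κ ^ 2 * (4 * (1 / (k : ℝ) ^ 2)) := by field_simp; ring
    have h9 : κ ^ 2 * (4 * x) ≤ κ ^ 2 * (4 * (1 / (k : ℝ) ^ 2)) :=
      mul_le_mul_of_nonneg_left (by linarith) (by positivity)
    have h10 : 2 * κ * ((1 - x) * κ) ≤ 2 * κ * avg (pr e k) :=
      mul_le_mul_of_nonneg_left h6 (by positivity)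
    rw [h8]
    nlinarith
  have h5 := var_nonneg (fun ω => |pr e k ω - κ|)
  rw [var_eq] at h5
  exact abs_le_of_sq_le_sq' (by linarith) (by positivity) |>.2

noncomputable def wm (e : α ↪ V) (k N : ℕ) (U : Finset V) : ℝ :=
  𝔼 T : Fin N → Fin k → α, W (gT e T) U

lemma expect_gT_mul (hk1 : 1 ≤ k) (ω ω' : V → Bool) :
    |(𝔼 T : Fin N → Fin k → α, gT e T ω * gT e T ω') - (1 - 2 * (1 / 2) ^ k) ^ N|
      ≤ N * (|pr e k ω - (1 / 2) ^ k| + |pr e k ω' - (1 / 2) ^ k|
        + 𝔼 τ : Fin k → α, ind e τ ω * ind e τ ω') := by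
  have h2 := Finset.expect_pow (univ : Finset (Fin k → α))
    (fun τ => (1 - ind e τ ω) * (1 - ind e τ ω')) N
  rw [Fintype.piFinset_univ] at h2
  have h3 : (𝔼 T : Fin N → Fin k → α, gT e T ω * gT e T ω')
      = (𝔼 τ : Fin k → α, (1 - ind e τ ω) * (1 - ind e τ ω')) ^ N := by
    rw [h2]
    refine Finset.expect_congr rfl fun T _ => ?_
    rw [gT, gT, ← Finset.prod_mul_distrib]
  rw [h3]
  set a := 𝔼 τ : Fin k → α, (1 - ind e τ ω) * (1 - ind e τ ω') with ha
  set q := 𝔼 τ : Fin k → α, ind e τ ω * ind e τ ω' with hq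
  have ha0 : 0 ≤ a := Finset.expect_nonneg fun τ _ =>
    mul_nonneg (by linarith [ind_le_one e τ ω]) (by linarith [ind_le_one e τ ω'])
  have ha1 : a ≤ 1 := Finset.expect_le Finset.univ_nonempty fun τ _ => by
    nlinarith [ind_le_one e τ ω, ind_le_one e τ ω', ind_nonneg e τ ω, ind_nonneg e τ ω']
  have hq0 : 0 ≤ q := Finset.expect_nonneg fun τ _ =>
    mul_nonneg (ind_nonneg e τ ω) (ind_nonneg e τ ω')
  have haeq : a = 1 - pr e k ω - pr e k ω' + q := by
    have : (fun τ : Fin k → α => (1 - ind e τ ω) * (1 - ind e τ ω'))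
        = fun τ => ((1 - ind e τ ω) - ind e τ ω') + ind e τ ω * ind e τ ω' := by
      funext τ; ring
    rw [ha, this, Finset.expect_add_distrib, Finset.expect_sub_distrib, Finset.expect_sub_distrib,
      Fintype.expect_const]
    rfl
  have hκ : (1 / 2 : ℝ) ^ k ≤ 1 / 2 := by
    calc (1 / 2 : ℝ) ^ k ≤ (1 / 2) ^ 1 := pow_le_pow_of_le_one (by norm_num) (by norm_num) hk1
      _ = _ := by norm_num
  have hκ0 : (0 : ℝ) < (1 / 2) ^ k := by positivity
  set κ : ℝ := (1 / 2) ^ k
  refine (abs_pow_sub_pow_le _ _ _).trans ?_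
  have hmax : max |a| |1 - 2 * κ| ^ (N - 1) ≤ 1 := by
    refine pow_le_one₀ (le_max_of_le_left (abs_nonneg _)) (max_le ?_ ?_)
    · rw [abs_of_nonneg ha0]; exact ha1
    · rw [abs_of_nonneg (by linarith)]; linarith
  have hd : |a - (1 - 2 * κ)| ≤ |pr e k ω - κ| + |pr e k ω' - κ| + q := by
    rw [haeq, abs_le]
    constructor
    · linarith [le_abs_self (pr e k ω - κ), le_abs_self (pr e k ω' - κ)]
    · linarith [neg_abs_le (pr e k ω - κ), neg_abs_le (pr e k ω' - κ)]
  calc |a - (1 - 2 * κ)| * N * max |a| |1 - 2 * κ| ^ (N - 1) ≤ |a - (1 - 2 * κ)| * N * 1 :=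
        mul_le_mul_of_nonneg_left hmax (by positivity)
    _ ≤ _ := by rw [mul_one, mul_comm]; exact mul_le_mul_of_nonneg_left hd (by positivity)

lemma wm_close (hk1 : 1 ≤ k) (hk : k ^ 4 ≤ Fintype.card α) (U : Finset V) :
    |wm e k N U - (1 - 2 * (1 / 2) ^ k) ^ N| ≤ N * ((1 / 2) ^ k * (4 / k) + Q e k U) := by
  have h1 : wm e k N U = avg fun ω => avg fun η =>
      𝔼 T : Fin N → Fin k → α, gT e T ω * gT e T (U.piecewise ω η) := by
    simp only [avg_expect]; rfl
  have h2 : Q e k U = avg fun ω => avg fun η =>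
      𝔼 τ : Fin k → α, ind e τ ω * ind e τ (U.piecewise ω η) := by
    simp only [avg_expect]; rfl
  rw [h1, ← avg_const (V := V) ((1 - 2 * (1 / 2 : ℝ) ^ k) ^ N), ← avg_sub]
  refine (abs_avg_le _).trans ?_
  calc _ ≤ avg fun ω => avg fun η => N * (|pr e k ω - (1 / 2) ^ k|
        + |pr e k (U.piecewise ω η) - (1 / 2) ^ k|
        + 𝔼 τ : Fin k → α, ind e τ ω * ind e τ (U.piecewise ω η)) := by
        refine avg_mono fun ω => ?_
        rw [← avg_const (V := V) ((1 - 2 * (1 / 2 : ℝ) ^ k) ^ N), ← avg_sub]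
        exact (abs_avg_le _).trans (avg_mono fun η => expect_gT_mul e hk1 _ _)
    _ = N * (avg (fun ω => |pr e k ω - (1 / 2) ^ k|) + avg (fun ω => |pr e k ω - (1 / 2) ^ k|)
        + Q e k U) := by
        simp only [avg_const_mul, avg_add, avg_const]
        rw [avg_avg_piecewise U (fun ω => |pr e k ω - (1 / 2) ^ k|), h2]
    _ ≤ _ := by
        refine mul_le_mul_of_nonneg_left ?_ (by positivity)
        have := avg_abs_pr e hk1 hk
        have h3 : (1 / 2 : ℝ) ^ k * (4 / k) = 2 * ((1 / 2) ^ k * (2 / k)) := by ring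
        linarith

lemma hat_gT_perm (σ : Equiv.Perm V) (T : Fin N → Fin k → V) (S : Finset V) :
    hat (gT (Embedding.refl V) fun j i => σ (T j i)) (S.map σ.toEmbedding)
      = hat (gT (Embedding.refl V) T) S := by
  rw [hat, hat, avg_eq, avg_eq]
  refine Fintype.expect_equiv (Equiv.arrowCongr σ.symm (Equiv.refl Bool)) _ _ fun ω => ?_
  congr 1
  · refine Finset.prod_congr rfl fun j _ => ?_
    rw [ind_eq, ind_eq]
    have : Injective (fun i => σ (T j i)) ↔ Injective (T j) := σ.injective.of_comp_iff (T j)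
    simp [this]
  · simp [chi]

lemma wm_le_bern [Nonempty V] {δ : ℝ} (h0 : 0 ≤ δ) (h1 : δ ≤ 1) (U : Finset V)
    (hU : (U.card : ℝ) ≤ δ * Fintype.card V) :
    wm (Embedding.refl V) k N U ≤ bern δ (wm (Embedding.refl V) k N) := by
  have h2 : wm (Embedding.refl V) k N = fun U => ∑ S ∈ U.powerset,
      𝔼 T : Fin N → Fin k → V, hat (gT (Embedding.refl V) T) S ^ 2 := by
    funext U
    simp only [wm, W_eq]
    exact Finset.expect_sum_comm _ _ _
  rw [h2]
  refine symm_le_bern _ (fun S => Finset.expect_nonneg fun _ _ => sq_nonneg _) ?_ h1 U hU h0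
  intro S S' hS
  obtain ⟨σ, rfl⟩ := Equiv.Perm.exists_map_finset_eq S S' hS
  refine Fintype.expect_equiv (Equiv.piCongrRight fun _ => Equiv.piCongrRight fun _ => σ) _ _
    fun T => ?_
  rw [← hat_gT_perm σ T S]
  rfl

end Pool.Agent.Lib.MP_b26fee_pr
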