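import Pool.Agent.Lib.MP_b26fee_pr.Fourier

set_option linter.unusedSectionVars false

namespace Pool.Agent.Lib.MP_b26fee_pr

open Finset
open scoped BigOperators

variable {V : Type} [Fintype V] [DecidableEq V]

lemma avg_coord (i : V) (ψ : Bool → ℝ) :
    avg (fun η : V → Bool => ψ (η i)) = (ψ true + ψ false) / 2 := by
  rw [avg_prod' (fun j b => if j = i then ψ b else 1) (g := fun η : V → Bool => ψ (η i))
    (by intro η; rw [Finset.prod_ite_eq']; simp)]
  rw [Finset.prod_eq_single i]
  · simp
  · intro j _ hj; simp [hj]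
  · simp

lemma piecewise_erase (i : V) (ω η : V → Bool) :
    (univ.erase i).piecewise ω η = Function.update ω i (η i) := by
  funext j
  by_cases hj : j = i
  · subst hj; simp [Finset.piecewise]
  · simp [Finset.piecewise, hj]

lemma avg_update (i : V) (h : (V → Bool) → ℝ) (ω : V → Bool) :
    avg (fun η => h ((univ.erase i).piecewise ω η))
      = (h (Function.update ω i true) + h (Function.update ω i false)) / 2 := by
  simp only [piecewise_erase]
  exact avg_coord i fun b => h (Function.update ω i b)

lemma avg_split (i : V) (h : (V → Bool) → ℝ) :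
    avg h = avg fun ω => (h (Function.update ω i true) + h (Function.update ω i false)) / 2 := by
  rw [← avg_avg_piecewise (univ.erase i) h]
  simp only [avg_update]

lemma pivot (f : (V → Bool) → Bool) (hf : Monotone f) (i : V) :
    W (sgn f) univ - W (sgn f) (univ.erase i) = hat (sgn f) {i} := by
  have h1 : W (sgn f) (univ.erase i) = avg fun ω => sgn f ω *
      ((sgn f (Function.update ω i true) + sgn f (Function.update ω i false)) / 2) := by
    rw [W]; congr 1; funext ω
    rw [avg_const_mul, avg_update]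
  rw [h1, W_univ, ← avg_sub, avg_split i, hat, avg_split i (fun ω => sgn f ω * chi {i} ω)]
  congr 1; funext ω
  simp only [Function.update_idem, chi, Finset.prod_singleton, Function.update_self, sg]
  have hle : f (Function.update ω i false) ≤ f (Function.update ω i true) := by
    apply hf
    intro j
    by_cases hj : j = i
    · subst hj; simp
    · simp [hj]
  revert hle
  simp only [sgn]
  cases f (Function.update ω i false) <;> cases f (Function.update ω i true) <;> simp

lemma sum_mem_eq (g : (V → Bool) → ℝ) (i : V) :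
    ∑ S : Finset V, (if i ∈ S then hat g S ^ 2 else 0) = W g univ - W g (univ.erase i) := by
  rw [W_eq, W_eq, Finset.powerset_univ]
  have : ∑ S ∈ (univ.erase i).powerset, hat g S ^ 2
      = ∑ S : Finset V, (if i ∈ S then 0 else hat g S ^ 2) := by
    rw [Finset.sum_ite]
    simp only [Finset.sum_const_zero, zero_add]
    congr 1
    ext S
    simp [Finset.subset_erase]
  rw [this, ← Finset.sum_sub_distrib]
  refine Finset.sum_congr rfl fun S _ => ?_
  split_ifs <;> ring

lemma poincare (f : (V → Bool) → Bool) (hf : Monotone f) (A : Finset V)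
    (hA : W (sgn f) A = W (sgn f) univ) : var (sgn f) ≤ ∑ i ∈ A, hat (sgn f) {i} := by
  rw [var_eq_W, ← hA]
  simp only [← pivot f hf, ← sum_mem_eq]
  rw [Finset.sum_comm, W_eq, W_eq, Finset.powerset_empty, Finset.sum_singleton]
  have h1 : ∑ S ∈ A.powerset, hat (sgn f) S ^ 2 - hat (sgn f) ∅ ^ 2
      = ∑ S ∈ A.powerset.erase ∅, hat (sgn f) S ^ 2 := by
    rw [← Finset.add_sum_erase _ _ (Finset.empty_mem_powerset A)]; ring
  rw [h1]
  calc ∑ S ∈ A.powerset.erase ∅, hat (sgn f) S ^ 2
      ≤ ∑ S ∈ A.powerset.erase ∅, ∑ i ∈ A, (if i ∈ S then hat (sgn f) S ^ 2 else 0) := by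
        refine Finset.sum_le_sum fun S hS => ?_
        obtain ⟨hne, hSA⟩ := Finset.mem_erase.1 hS
        obtain ⟨i, hi⟩ := Finset.nonempty_iff_ne_empty.2 hne
        have hiA : i ∈ A := Finset.mem_powerset.1 hSA hi
        have := Finset.single_le_sum (s := A)
          (f := fun i => if i ∈ S then hat (sgn f) S ^ 2 else 0)
          (fun j _ => by split_ifs <;> positivity) hiA
        simpa [hi] using this
    _ ≤ _ := Finset.sum_le_sum_of_subset_of_nonneg (Finset.subset_univ _) fun S _ _ =>
        Finset.sum_nonneg fun j _ => by split_ifs <;> positivity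

lemma var_nonneg (g : (V → Bool) → ℝ) : 0 ≤ var g := avg_nonneg fun _ => sq_nonneg _

lemma bern_W (δ : ℝ) (g : (V → Bool) → ℝ) :
    bern δ (W g) = ∑ S : Finset V, δ ^ S.card * hat g S ^ 2 := by
  rw [← bern_powerset]; congr 1; funext U; exact W_eq g U

lemma bern_lower (f : (V → Bool) → Bool) (hf : Monotone f) (A : Finset V)
    (hA : W (sgn f) A = W (sgn f) univ) {δ : ℝ} (hδ : 0 ≤ δ) :
    δ * var (sgn f) ^ 2 ≤ A.card * (bern δ (W (sgn f)) - W (sgn f) ∅) := by
  have h1 := poincare f hf A hA
  have h2 : var (sgn f) ^ 2 ≤ A.card * ∑ i ∈ A, hat (sgn f) {i} ^ 2 :=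
    (pow_le_pow_left₀ (var_nonneg _) h1 2).trans sq_sum_le_card_mul_sum_sq
  have h3 : δ * ∑ i ∈ A, hat (sgn f) {i} ^ 2 ≤ bern δ (W (sgn f)) - W (sgn f) ∅ := by
    rw [bern_W, W_eq, Finset.powerset_empty, Finset.sum_singleton,
      ← Finset.add_sum_erase _ _ (Finset.mem_univ (∅ : Finset V))]
    simp only [Finset.card_empty, pow_zero, one_mul, add_sub_cancel_left]
    have : δ * ∑ i ∈ A, hat (sgn f) {i} ^ 2
        = ∑ S ∈ A.map ⟨fun i => ({i} : Finset V), fun a b h => by simpa using h⟩,
          δ ^ S.card * hat (sgn f) S ^ 2 := by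
      rw [Finset.sum_map, Finset.mul_sum]
      simp
    rw [this]
    refine Finset.sum_le_sum_of_subset_of_nonneg ?_ fun S _ _ => by positivity
    intro S hS
    obtain ⟨i, _, rfl⟩ := Finset.mem_map.1 hS
    simp
  calc δ * var (sgn f) ^ 2 ≤ δ * (A.card * ∑ i ∈ A, hat (sgn f) {i} ^ 2) :=
        mul_le_mul_of_nonneg_left h2 hδ
    _ = A.card * (δ * ∑ i ∈ A, hat (sgn f) {i} ^ 2) := by ring
    _ ≤ _ := mul_le_mul_of_nonneg_left h3 (by positivity)

lemma choose_le_choose_mul_pow {m n : ℕ} {δ : ℝ} (h1 : δ ≤ 1) (hm : (m : ℝ) ≤ δ * n) (r : ℕ) :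
    (m.choose r : ℝ) ≤ n.choose r * δ ^ r := by
  have hδ : 0 ≤ δ * n := le_trans (by positivity) hm
  have key : ∀ r : ℕ, (m.descFactorial r : ℝ) ≤ n.descFactorial r * δ ^ r := by
    intro r
    induction r with
    | zero => simp
    | succ r ih =>
      rw [Nat.descFactorial_succ, Nat.descFactorial_succ]
      push_cast
      by_cases hr : m ≤ r
      · rw [Nat.sub_eq_zero_of_le hr]
        simp only [Nat.cast_zero, zero_mul]
        rcases Nat.eq_zero_or_pos n with hn | hn
        · subst hn; simp
        · have : 0 ≤ δ := by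
            by_contra hc
            push Not at hc
            have : (0 : ℝ) < n := by exact_mod_cast hn
            nlinarith
          positivity
      · push Not at hr
        have hmr : (r : ℝ) < m := by exact_mod_cast hr
        have hr0 : (0 : ℝ) ≤ r := by positivity
        have hn0 : (0 : ℝ) ≤ n := by positivity
        have hmn : (m : ℝ) ≤ n := by nlinarith
        have hmn' : m ≤ n := by exact_mod_cast hmn
        rw [Nat.cast_sub hr.le, Nat.cast_sub (by omega)]
        have h2 : (m : ℝ) - r ≤ ((n : ℝ) - r) * δ := by nlinarith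
        have h3 : (0 : ℝ) ≤ m - r := by linarith
        calc ((m : ℝ) - r) * m.descFactorial r ≤ (((n : ℝ) - r) * δ) * (n.descFactorial r * δ ^ r) :=
              mul_le_mul h2 ih (by positivity) (by linarith)
          _ = _ := by ring
  have := key r
  rw [Nat.descFactorial_eq_factorial_mul_choose, Nat.descFactorial_eq_factorial_mul_choose] at this
  push_cast at this
  have hf : (0 : ℝ) < r.factorial := by exact_mod_cast r.factorial_pos
  rw [mul_assoc] at this
  exact le_of_mul_le_mul_left this hf

lemma symm_le_bern (a : Finset V → ℝ) (ha : ∀ S, 0 ≤ a S)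
    (hsymm : ∀ S S' : Finset V, S.card = S'.card → a S = a S') {δ : ℝ} (h1 : δ ≤ 1)
    (U : Finset V) (hU : (U.card : ℝ) ≤ δ * Fintype.card V) (hδ : 0 ≤ δ) :
    ∑ S ∈ U.powerset, a S ≤ bern δ (fun U => ∑ S ∈ U.powerset, a S) := by
  classical
  let α : ℕ → ℝ := fun r => if h : ∃ S : Finset V, S.card = r then a h.choose else 0
  have hα : ∀ S : Finset V, a S = α S.card := by
    intro S
    have h : ∃ S' : Finset V, S'.card = S.card := ⟨S, rfl⟩
    simp only [α, dif_pos h]
    exact hsymm _ _ h.choose_spec.symm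
  have hα0 : ∀ r, 0 ≤ α r := by
    intro r; simp only [α]; split_ifs
    · exact ha _
    · exact le_rfl
  rw [bern_powerset]
  simp only [hα]
  rw [← Finset.powerset_univ, Finset.sum_powerset_apply_card α,
    Finset.sum_powerset_apply_card (fun r => δ ^ r * α r)]
  have hsub : range (U.card + 1) ⊆ range ((univ : Finset V).card + 1) :=
    Finset.range_mono (Nat.succ_le_succ (Finset.card_le_univ U))
  calc ∑ m ∈ range (U.card + 1), U.card.choose m • α m
      ≤ ∑ m ∈ range (U.card + 1), (univ : Finset V).card.choose m • (δ ^ m * α m) := by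
        refine Finset.sum_le_sum fun m _ => ?_
        rw [nsmul_eq_mul, nsmul_eq_mul, ← mul_assoc]
        exact mul_le_mul_of_nonneg_right (choose_le_choose_mul_pow h1 hU m) (hα0 m)
    _ ≤ _ := Finset.sum_le_sum_of_subset_of_nonneg hsub fun m _ _ => by
        have := hα0 m
        positivity

end Pool.Agent.Lib.MP_b26fee_pr
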